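import Mathlib

/-! Chains of integer affine maps against an adversary, for an arbitrary property of pairs, with control of
the images under finitely many substitutions `(a, d) ↦ (k a + l (1 - d), d)` (helper86). The construction
extends that of `Pool.Agent.H361R2.Chain` of the starting files. -/

set_option autoImplicit false

namespace Pool.Agent.K1H86.PP

open Finset

/-- avoiding one residue class for each of few forms -/
theorem avoid {ι : Type*} [Fintype ι] {p : ℕ} (hp : p.Prime) (hc : Fintype.card ι < p) (A B : ι → ℤ)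
    (hA : ∀ i, ¬ (p : ℤ) ∣ A i) : ∃ w : ℕ, ∀ i, ¬ (p : ℤ) ∣ A i * w + B i := by
  classical
  by_contra hcon
  push Not at hcon
  choose f hf using hcon
  obtain ⟨x, hx, y, hy, hxy, hfe⟩ := exists_ne_map_eq_of_card_lt_of_maps_to
    (s := range p) (t := (univ : Finset ι)) (f := f) (by simpa using hc) (fun n _ => mem_univ _)
  have h1 := hf x
  have h2 := hf y
  rw [hfe] at h1
  have h3 := dvd_sub h1 h2
  have h4 : (A (f y) * (x : ℤ) + B (f y)) - (A (f y) * (y : ℤ) + B (f y)) =
      A (f y) * ((x : ℤ) - y) := by ring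
  rw [h4] at h3
  have hpI : Prime (p : ℤ) := Nat.prime_iff_prime_int.1 hp
  rcases hpI.dvd_or_dvd h3 with h5 | h5
  · exact hA _ h5
  · rw [mem_range] at hx hy
    have h6 : (x : ℤ) ≡ y [ZMOD p] := (Int.modEq_iff_dvd.2 (by
      have := (dvd_neg (a := (p : ℤ))).2 h5
      rwa [neg_sub] at this))
    have h7 : x ≡ y [MOD p] := (Int.natCast_modEq_iff).1 h6
    exact hxy (Nat.ModEq.eq_of_lt_of_lt h7 hx hy)

/-- the base pairs -/
def Cls (Λ : Finset (ℤ × ℤ)) (W : ℕ) (a d : ℤ) : Prop :=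
  0 < a ∧ 0 < d ∧ (W : ℤ) ∣ a ∧ (W : ℤ) ∣ d - 1 ∧
    ∀ l ∈ Λ, ∀ p : ℕ, p.Prime → (p : ℤ) ∣ d → ¬ (p : ℤ) ∣ l.1 * a + l.2

/-- a chain of maps `x ↦ A i x + B i`, all of whose relations violate the property `Q` -/
structure Chn (Λ : Finset (ℤ × ℤ)) (W : ℕ) (Q : ℤ → ℤ → Prop) (m : ℕ) (A B : ℕ → ℤ) : Prop where
  pos : ∀ i ≤ m, 0 < A i
  amod : ∀ i ≤ m, (W : ℤ) ∣ A i - 1
  bmod : ∀ i ≤ m, (W : ℤ) ∣ B i
  rel : ∀ i j, i < j → j ≤ m → ∃ u D : ℤ, 0 < u ∧ 1 < D ∧ A j = D * A i ∧ B j = u + D * B i ∧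
    ¬ Q u D
  loc : ∀ p : ℕ, p.Prime → ¬ p ∣ W → ∀ l ∈ Λ, ∃ n : ℤ, ∀ i ≤ m,
    ¬ (p : ℤ) ∣ l.1 * (A i * n + B i) + l.2

theorem exists_w {Λ : Finset (ℤ × ℤ)} {W : ℕ} (hk : ∀ l ∈ Λ, l.1 ∣ (W : ℤ))
    (hc : ∀ p : ℕ, p.Prime → p ≤ Λ.card → p ∣ W) {a d : ℤ}
    (hcl : ∀ l ∈ Λ, ∀ p : ℕ, p.Prime → (p : ℤ) ∣ d → ¬ (p : ℤ) ∣ l.1 * a + l.2)
    {D : ℕ} (hD : 0 < D) :
    ∃ w : ℕ, w < D ∧ ∀ p : ℕ, p.Prime → p ∣ D → ¬ p ∣ W → ∀ l ∈ Λ,
      ¬ (p : ℤ) ∣ l.1 * (a + d * (W * w)) + l.2 := by
  classical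
  set S : Finset ℕ := D.primeFactors.filter (fun p => ¬ p ∣ W) with hS
  have hres : ∀ p : ℕ, ∃ r : ℕ, p ∈ S → ∀ l ∈ Λ, ¬ (p : ℤ) ∣ l.1 * (a + d * (W * r)) + l.2 := by
    intro p
    by_cases hp : p ∈ S
    · rw [hS, mem_filter, Nat.mem_primeFactors] at hp
      have hpI : Prime (p : ℤ) := Nat.prime_iff_prime_int.1 hp.1.1
      have hpW : ¬ (p : ℤ) ∣ (W : ℤ) := fun h => hp.2 (Int.natCast_dvd_natCast.1 h)
      by_cases hpd : (p : ℤ) ∣ d
      · refine ⟨0, fun _ l hl => ?_⟩
        have := hcl l hl p hp.1.1 hpd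
        simpa using this
      · have hcard : Fintype.card Λ < p := by
          rw [Fintype.card_coe]
          by_contra hcon
          push Not at hcon
          exact hp.2 (hc p hp.1.1 hcon)
        obtain ⟨w, hw⟩ := avoid hp.1.1 hcard (fun l : Λ => l.1.1 * (d * W)) (fun l => l.1.1 * a + l.1.2)
          (by
            intro l h
            rcases hpI.dvd_or_dvd h with h1 | h1
            · exact hpW (h1.trans (hk _ l.2))
            · rcases hpI.dvd_or_dvd h1 with h2 | h2
              · exact hpd h2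
              · exact hpW h2)
        refine ⟨w, fun _ l hl h => hw ⟨l, hl⟩ ?_⟩
        simp only
        convert h using 1
        ring
    · exact ⟨0, fun h => absurd h hp⟩
  choose r hr using hres
  obtain ⟨k, hkk⟩ := Nat.chineseRemainderOfFinset r id S
    (by
      intro p hp
      rw [hS, mem_filter, Nat.mem_primeFactors] at hp
      exact hp.1.1.ne_zero)
    (by
      intro p hp q hq hpq
      rw [hS, mem_coe, mem_filter, Nat.mem_primeFactors] at hp hq
      exact (Nat.coprime_primes hp.1.1 hq.1.1).2 hpq)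
  refine ⟨k % D, Nat.mod_lt _ hD, fun p hp hpD hpW l hl h => ?_⟩
  have hpS : p ∈ S := by
    rw [hS, mem_filter, Nat.mem_primeFactors]
    exact ⟨⟨hp, hpD, hD.ne'⟩, hpW⟩
  apply hr p hpS l hl
  have h1 : k ≡ r p [MOD p] := hkk p hpS
  have h2 : k % D ≡ k [MOD p] := (Nat.mod_modEq k D).of_dvd hpD
  have h3 : (p : ℤ) ∣ (r p : ℤ) - ((k % D : ℕ) : ℤ) := (Nat.modEq_iff_dvd).1 (h2.trans h1)
  have h4 : l.1 * (a + d * (W * (r p : ℤ))) + l.2 =
      (l.1 * (a + d * (W * ((k % D : ℕ) : ℤ))) + l.2) +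
        ((r p : ℤ) - ((k % D : ℕ) : ℤ)) * (l.1 * d * W) := by ring
  rw [h4]
  exact dvd_add h (Dvd.dvd.mul_right h3 _)

/-- the chain built against an adversary -/
theorem chain_exists {Λ : Finset (ℤ × ℤ)} {W N : ℕ} {Q : ℤ → ℤ → Prop} (hW : 0 < W)
    (hk : ∀ l ∈ Λ, l.1 ∣ (W : ℤ))
    (hc : ∀ p : ℕ, p.Prime → p ≤ Λ.card → p ∣ W) (hN : ∀ p : ℕ, p.Prime → p ≤ N + 1 → p ∣ W)
    (H : ∀ F : Finset (ℤ × ℤ), (∀ f ∈ F, 0 ≤ f.1 ∧ 0 < f.2 ∧ (W : ℤ) ∣ f.1 ∧ (W : ℤ) ∣ f.2 - 1) →
      ∃ a d : ℤ, Cls Λ W a d ∧ ∀ f ∈ F, ¬ Q (a + d * f.1) (d * f.2)) (m : ℕ) (hm : m ≤ N) :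
    ∃ A B : ℕ → ℤ, Chn Λ W Q m A B := by
  classical
  induction m with
  | zero =>
    refine ⟨fun _ => 1, fun _ => 0, ?_, ?_, ?_, ?_, ?_⟩
    · intro i _; exact one_pos
    · intro i _; simp
    · intro i _; simp
    · intro i j h1 h2; omega
    · intro p hp hpW l hl
      have hpW' : ¬ (p : ℤ) ∣ (W : ℤ) := fun h => hpW (Int.natCast_dvd_natCast.1 h)
      obtain ⟨w, hw⟩ := avoid (ι := Unit) hp (by simpa using hp.one_lt) (fun _ => l.1) (fun _ => l.2)
        (fun _ h => hpW' (h.trans (hk l hl)))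
      refine ⟨w, fun i _ h => hw () ?_⟩
      simpa using h
  | succ m ih =>
    obtain ⟨A, B, hpos, hamod, hbmod, hrel, hloc⟩ := ih (by omega)
    have hrel' : ∀ i, i ≤ m → ∃ U V : ℤ, 0 ≤ U ∧ 0 < V ∧ A m = V * A i ∧ B m = U + V * B i := by
      intro i hi
      rcases Nat.lt_or_ge i m with h | h
      · obtain ⟨u, D, h0, h1, h2, h3, _⟩ := hrel i m h le_rfl
        exact ⟨u, D, h0.le, by omega, h2, h3⟩
      · have : i = m := le_antisymm hi h
        subst this
        exact ⟨0, 1, le_rfl, one_pos, by ring, by ring⟩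
    choose! U V hU hV hAV hBV using hrel'
    have hVm : ∀ i ≤ m, (W : ℤ) ∣ V i - 1 := by
      intro i hi
      have h1 := hamod m le_rfl
      have h2 := hamod i hi
      have h3 : V i - 1 = (A m - 1) - V i * (A i - 1) := by rw [hAV i hi]; ring
      rw [h3]
      exact dvd_sub h1 (Dvd.dvd.mul_left h2 _)
    have hUm : ∀ i ≤ m, (W : ℤ) ∣ U i := by
      intro i hi
      have h3 : U i = B m - V i * B i := by rw [hBV i hi]; ring
      rw [h3]
      exact dvd_sub (hbmod m le_rfl) (Dvd.dvd.mul_left (hbmod i hi) _)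
    have hAm := hpos m le_rfl
    set D0 : ℤ := A m * (W + 1) with hD0
    have hWpos : (0 : ℤ) < W := by exact_mod_cast hW
    have hD0two : 2 ≤ D0 := by
      rw [hD0]
      nlinarith
    have hD0m : (W : ℤ) ∣ D0 - 1 := by
      have h1 := hamod m le_rfl
      have h2 : D0 - 1 = (A m - 1) + A m * W := by rw [hD0]; ring
      rw [h2]
      exact dvd_add h1 (Dvd.intro_left _ rfl)
    obtain ⟨E, hE⟩ := Int.eq_ofNat_of_zero_le (by omega : 0 ≤ D0)
    have hE0 : 0 < E := by omega
    set F : Finset (ℤ × ℤ) := ((range E) ×ˢ (range (m + 1))).image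
      (fun t => ((W : ℤ) * (t.1 : ℤ) + D0 * U t.2, D0 * V t.2)) with hF
    obtain ⟨a, d, hcl, hbad⟩ := H F (by
      intro f hf
      rw [hF, mem_image] at hf
      obtain ⟨t, ht, rfl⟩ := hf
      rw [mem_product, mem_range, mem_range] at ht
      have hti : t.2 ≤ m := by omega
      have h1 := hU _ hti
      have h2 := hV _ hti
      refine ⟨by positivity, by positivity, ?_, ?_⟩
      · exact dvd_add (Dvd.intro _ rfl) (Dvd.dvd.mul_left (hUm _ hti) _)
      · have h3 : D0 * V t.2 - 1 = (D0 - 1) * V t.2 + (V t.2 - 1) := by ring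
        show (W : ℤ) ∣ D0 * V t.2 - 1
        rw [h3]
        exact dvd_add (Dvd.dvd.mul_right hD0m _) (hVm _ hti))
    obtain ⟨ha, hd, haW, hdW, hcop⟩ := hcl
    obtain ⟨w, hwE, hw⟩ := exists_w hk hc hcop hE0
    have hVpos : ∀ i ≤ m, 0 < d * (D0 * V i) := by
      intro i hi
      have := hV i hi
      positivity
    refine ⟨fun i => if i ≤ m then A i else d * D0 * A m,
      fun i => if i ≤ m then B i else a + d * (W * w) + d * D0 * B m, ?_, ?_, ?_, ?_, ?_⟩
    · intro i _
      by_cases h : i ≤ m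
      · simp only [h, if_true]; exact hpos i h
      · simp only [h, if_false]
        positivity
    · intro i _
      by_cases h : i ≤ m
      · simp only [h, if_true]; exact hamod i h
      · simp only [h, if_false]
        have h1 : d * D0 * A m - 1 = (d - 1) * (D0 * A m) + (D0 - 1) * A m + (A m - 1) := by ring
        rw [h1]
        exact dvd_add (dvd_add (Dvd.dvd.mul_right hdW _) (Dvd.dvd.mul_right hD0m _)) (hamod m le_rfl)
    · intro i _
      by_cases h : i ≤ m
      · simp only [h, if_true]; exact hbmod i h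
      · simp only [h, if_false]
        refine dvd_add (dvd_add haW ?_) (Dvd.dvd.mul_left (hbmod m le_rfl) _)
        exact Dvd.dvd.mul_left (Dvd.intro _ rfl) _
    · intro i j hij hj
      have hi : i ≤ m := by omega
      by_cases h : j ≤ m
      · simp only [hi, h, if_true]; exact hrel i j hij h
      · simp only [hi, h, if_true, if_false]
        refine ⟨a + d * (W * w + D0 * U i), d * (D0 * V i), ?_, ?_, ?_, ?_, ?_⟩
        · have h1 := hU i hi
          have h2 : 0 ≤ d * (W * w + D0 * U i) := by positivity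
          omega
        · have h1 := hV i hi
          have h2 : 1 ≤ d := hd
          have h3 : 1 ≤ V i := h1
          have h4 : 2 ≤ D0 * V i := by nlinarith
          nlinarith
        · rw [hAV i hi]; ring
        · rw [hBV i hi]; ring
        · have hmem : ((W : ℤ) * (w : ℤ) + D0 * U i, D0 * V i) ∈ F := by
            rw [hF, mem_image]
            exact ⟨(w, i), by simp [hwE]; omega, rfl⟩
          exact hbad _ hmem
    · intro p hp hpW l hl
      have hpI : Prime (p : ℤ) := Nat.prime_iff_prime_int.1 hp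
      have hpW' : ¬ (p : ℤ) ∣ (W : ℤ) := fun h => hpW (Int.natCast_dvd_natCast.1 h)
      have hpl : ¬ (p : ℤ) ∣ l.1 := fun h => hpW' (h.trans (hk l hl))
      obtain ⟨n, hn⟩ := hloc p hp hpW l hl
      by_cases hpD : p ∣ E
      · refine ⟨n, ?_⟩
        intro i hi
        by_cases h : i ≤ m
        · simp only [h, if_true]; exact hn i h
        · simp only [h, if_false]
          intro hdvd
          apply hw p hp hpD hpW l hl
          have hpD0 : (p : ℤ) ∣ D0 := by rw [hE]; exact Int.natCast_dvd_natCast.2 hpD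
          have h3 : l.1 * (d * D0 * A m * n + (a + d * (W * w) + d * D0 * B m)) + l.2 =
            (l.1 * (a + d * (W * w)) + l.2) + D0 * (l.1 * (d * (A m * n + B m))) := by ring
          rw [h3] at hdvd
          exact (dvd_add_left (Dvd.dvd.mul_right hpD0 _)).1 hdvd
      · by_cases hpd : (p : ℤ) ∣ d
        · refine ⟨n, ?_⟩
          intro i hi
          by_cases h : i ≤ m
          · simp only [h, if_true]; exact hn i h
          · simp only [h, if_false]
            intro hdvd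
            apply hcop l hl p hp hpd
            have h3 : l.1 * (d * D0 * A m * n + (a + d * (W * w) + d * D0 * B m)) + l.2 =
              (l.1 * a + l.2) + d * (l.1 * (D0 * A m * n + W * w + D0 * B m)) := by ring
            rw [h3] at hdvd
            exact (dvd_add_left (Dvd.dvd.mul_right hpd _)).1 hdvd
        · have hpD0 : ¬ (p : ℤ) ∣ D0 := by
            rw [hE]; intro h; exact hpD (Int.natCast_dvd_natCast.1 h)
          have hpAm : ¬ (p : ℤ) ∣ A m := fun h => hpD0 (by rw [hD0]; exact Dvd.dvd.mul_right h _)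
          have hpAi : ∀ i ≤ m, ¬ (p : ℤ) ∣ A i := by
            intro i hi h
            apply hpAm
            rw [hAV i hi]
            exact Dvd.dvd.mul_left h _
          have hcard : Fintype.card (Fin (m + 2)) < p := by
            rw [Fintype.card_fin]
            by_contra hcon
            push Not at hcon
            exact hpW (hN p hp (by omega))
          obtain ⟨w', hw'⟩ := avoid hp hcard
            (fun i : Fin (m + 2) => l.1 * (if (i : ℕ) ≤ m then A i else d * D0 * A m))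
            (fun i => l.1 * (if (i : ℕ) ≤ m then B i else a + d * (W * w) + d * D0 * B m) + l.2)
            (by
              intro i h0
              rcases hpI.dvd_or_dvd h0 with h1 | h1
              · exact hpl h1
              · by_cases h : (i : ℕ) ≤ m
                · simp only [h, if_true] at h1; exact hpAi _ h h1
                · simp only [h, if_false] at h1
                  rcases hpI.dvd_or_dvd h1 with h2 | h2
                  · rcases hpI.dvd_or_dvd h2 with h3 | h3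
                    · exact hpd h3
                    · exact hpD0 h3
                  · exact hpAm h2)
          refine ⟨w', fun i hi h => hw' ⟨i, by omega⟩ ?_⟩
          simp only
          convert h using 1
          ring

/-- if there is no chain of length `N`, finitely many substitutions suffice -/
theorem syndetic {Λ : Finset (ℤ × ℤ)} {W N : ℕ} {Q : ℤ → ℤ → Prop} (hW : 0 < W)
    (hk : ∀ l ∈ Λ, l.1 ∣ (W : ℤ))
    (hc : ∀ p : ℕ, p.Prime → p ≤ Λ.card → p ∣ W) (hN : ∀ p : ℕ, p.Prime → p ≤ N + 1 → p ∣ W)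
    (hno : ∀ A B : ℕ → ℤ, ¬ Chn Λ W Q N A B) :
    ∃ F : Finset (ℤ × ℤ), (∀ f ∈ F, 0 ≤ f.1 ∧ 0 < f.2 ∧ (W : ℤ) ∣ f.1 ∧ (W : ℤ) ∣ f.2 - 1) ∧
      ∀ a d : ℤ, Cls Λ W a d → ∃ f ∈ F, Q (a + d * f.1) (d * f.2) := by
  by_contra hcon
  push Not at hcon
  obtain ⟨A, B, h⟩ := chain_exists hW hk hc hN (by
    intro F hF
    obtain ⟨a, d, h1, h2⟩ := hcon F hF
    exact ⟨a, d, h1, h2⟩) N le_rfl
  exact hno A B h

end Pool.Agent.K1H86.PP
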