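import Mathlib
import Pool.Agent.K1H86.PP.Chain

/-! A positive proportion of pairs (helper86). -/

set_option autoImplicit false

namespace Pool.Agent.K1H86.PP

open Finset Filter

/-- a finite set of naturals below `X` inside one class modulo `M` -/
theorem card_class {X M : ℕ} (T : Finset ℕ) (hT : ∀ t ∈ T, t ≤ X)
    (hd : ∀ t ∈ T, ∀ t' ∈ T, (M : ℤ) ∣ (t : ℤ) - t') : T.card ≤ X / M + 1 := by
  have h1 : T.card ≤ (range (X / M + 1)).card := by
    apply Finset.card_le_card_of_injOn (fun t => t / M)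
    · intro t ht
      simp only [coe_range, Set.mem_Iio]
      exact Nat.lt_succ_of_le (Nat.div_le_div_right (hT t ht))
    · intro t ht t' ht' h
      simp only at h
      have h2 : t ≡ t' [MOD M] := by
        rw [Nat.modEq_iff_dvd]
        exact hd t' ht' t ht
      have h3 := Nat.div_add_mod t M
      have h4 := Nat.div_add_mod t' M
      unfold Nat.ModEq at h2
      rw [h, h2] at h3
      omega
  simpa using h1

theorem sum_inv_sq (n Y : ℕ) (hn : 1 ≤ n) :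
    ∑ p ∈ (Ioc n Y), 1 / (p : ℝ) ^ 2 ≤ 1 / (n : ℝ) := by
  rcases Nat.lt_or_ge Y n with h | h
  · rw [Ioc_eq_empty (by omega)]
    simp
  · have : ∑ p ∈ (Ioc n Y), 1 / (p : ℝ) ^ 2 ≤ 1 / (n : ℝ) - 1 / (Y : ℝ) := by
      induction Y, h using Nat.le_induction with
      | base => simp
      | succ Y hY ih =>
        have h1 : Ioc n (Y + 1) = insert (Y + 1) (Ioc n Y) := by
          ext x
          simp only [mem_Ioc, mem_insert]
          omega
        rw [h1, Finset.sum_insert (by simp)]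
        have hY' : (1 : ℝ) ≤ Y := by exact_mod_cast hn.trans hY
        have h4 : 1 / ((Y + 1 : ℕ) : ℝ) ^ 2 ≤ 1 / (Y : ℝ) - 1 / (Y + 1 : ℕ) := by
          push_cast
          have h5 : 1 / (Y : ℝ) - 1 / (Y + 1) = 1 / (Y * (Y + 1)) := by
            field_simp
            ring
          rw [h5]
          apply one_div_le_one_div_of_le (by positivity)
          nlinarith
        linarith
    have h2 : (0 : ℝ) ≤ 1 / (Y : ℝ) := by positivity
    linarith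

theorem sum_inv (Y : ℕ) : ∑ p ∈ (Ioc 0 Y), 1 / (p : ℝ) ≤ 1 + Real.log Y := by
  have h1 := harmonic_le_one_add_log Y
  rw [harmonic_eq_sum_Icc] at h1
  have h2 : Ioc 0 Y = Icc 1 Y := by ext x; simp only [mem_Ioc, mem_Icc]; omega
  rw [h2]
  push_cast at h1
  simpa using h1

open Classical in
/-- the base pairs in a box -/
noncomputable def base (Λ : Finset (ℤ × ℤ)) (W X Y : ℕ) : Finset (ℕ × ℕ) :=
  (Ioc 0 X ×ˢ Ioc 0 Y).filter (fun z => Cls Λ W z.1 z.2)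

theorem base_ge {Λ : Finset (ℤ × ℤ)} {W n : ℕ} (hW : 0 < W) (hk : ∀ l ∈ Λ, l.1 ∣ (W : ℤ))
    (hn : 1 ≤ n) (hΛ : 32 * Λ.card ≤ n) (hnW : ∀ p : ℕ, p.Prime → p ≤ n → p ∣ W) (X Y : ℕ)
    (hYX : Y ≤ X) :
    ((X / W : ℕ) : ℝ) * ((Y / W : ℕ) : ℝ) - (X * Y : ℝ) / (32 * W ^ 2)
      - (Λ.card : ℝ) * (2 * X * (1 + Real.log Y) + Y) ≤ ((base Λ W X Y).card : ℝ) := by
  classical
  have hWr : (0 : ℝ) < W := by exact_mod_cast hW
  set SA := (Ioc 0 X).filter (fun a => W ∣ a) with hSA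
  set SD := (Ioc 0 Y).filter (fun d : ℕ => (W : ℤ) ∣ (d : ℤ) - 1) with hSD
  have hSAc : SA.card = X / W := by rw [hSA, Nat.Ioc_filter_dvd_card_eq_div]
  have hSDc : Y / W ≤ SD.card := by
    have h1 : (range (Y / W)).card ≤ SD.card := by
      apply Finset.card_le_card_of_injOn (fun t => 1 + W * t)
      · intro t ht
        simp only [coe_range, Set.mem_Iio] at ht
        rw [mem_coe, hSD, mem_filter, mem_Ioc]
        show (0 < 1 + W * t ∧ 1 + W * t ≤ Y) ∧ (W : ℤ) ∣ ((1 + W * t : ℕ) : ℤ) - 1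
        refine ⟨⟨by omega, ?_⟩, ?_⟩
        · have h2 : W * (t + 1) ≤ W * (Y / W) := Nat.mul_le_mul_left _ ht
          have h3 : W * (Y / W) ≤ Y := Nat.mul_div_le Y W
          have h4 : 1 + W * t ≤ W * (t + 1) := by
            rw [Nat.mul_add]; omega
          omega
        · push_cast
          exact ⟨t, by ring⟩
      · intro t _ t' _ h
        simp only at h
        have h2 : W * t = W * t' := by omega
        exact Nat.eq_of_mul_eq_mul_left hW h2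
    simpa using h1
  -- the bad pairs
  set P := (Ioc n Y).filter (fun p => p.Prime ∧ ¬ p ∣ W) with hP
  set Ap : ℕ → ℤ × ℤ → Finset ℕ := fun p l => (Ioc 0 X).filter
    (fun a : ℕ => W ∣ a ∧ (p : ℤ) ∣ l.1 * a + l.2) with hAp
  set Dp : ℕ → Finset ℕ := fun p => (Ioc 0 Y).filter (fun d : ℕ => (W : ℤ) ∣ (d : ℤ) - 1 ∧ p ∣ d) with hDp
  have hsub : SA ×ˢ SD ⊆ base Λ W X Y ∪ P.biUnion (fun p => Λ.biUnion (fun l => Ap p l ×ˢ Dp p)) := by
    intro z hz
    rw [mem_product, hSA, hSD, mem_filter, mem_filter, mem_Ioc, mem_Ioc] at hz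
    obtain ⟨⟨⟨hz1, hz2⟩, hz3⟩, ⟨hz4, hz5⟩, hz6⟩ := hz
    by_cases hcl : Cls Λ W z.1 z.2
    · apply mem_union_left
      rw [base, mem_filter, mem_product, mem_Ioc, mem_Ioc]
      exact ⟨⟨⟨hz1, hz2⟩, hz4, hz5⟩, hcl⟩
    · apply mem_union_right
      have h1 : ∃ l ∈ Λ, ∃ p : ℕ, p.Prime ∧ (p : ℤ) ∣ (z.2 : ℤ) ∧ (p : ℤ) ∣ l.1 * z.1 + l.2 := by
        by_contra hcon
        push Not at hcon
        apply hcl
        exact ⟨by exact_mod_cast hz1, by exact_mod_cast hz4, Int.natCast_dvd_natCast.2 hz3, hz6,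
          fun l hl p hp h => hcon l hl p hp h⟩
      obtain ⟨l, hl, p, hp, hpd, hpl⟩ := h1
      have hpd' : p ∣ z.2 := Int.natCast_dvd_natCast.1 hpd
      have hpW : ¬ p ∣ W := by
        intro h
        have h2 : (p : ℤ) ∣ (z.2 : ℤ) - 1 := (Int.natCast_dvd_natCast.2 h).trans hz6
        have h3 : (p : ℤ) ∣ 1 := by
          have := dvd_sub hpd h2
          simpa using this
        exact (Nat.prime_iff_prime_int.1 hp).not_isUnit (isUnit_of_dvd_one h3)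
      rw [mem_biUnion]
      refine ⟨p, ?_, ?_⟩
      · rw [hP, mem_filter, mem_Ioc]
        refine ⟨⟨?_, (Nat.le_of_dvd hz4 hpd').trans hz5⟩, hp, hpW⟩
        by_contra hcon
        exact hpW (hnW p hp (by omega))
      · rw [mem_biUnion]
        refine ⟨l, hl, ?_⟩
        rw [mem_product, hAp, hDp]
        simp only [mem_filter, mem_Ioc]
        exact ⟨⟨⟨hz1, hz2⟩, hz3, hpl⟩, ⟨hz4, hz5⟩, hz6, hpd'⟩
  have hcardAp : ∀ p ∈ P, ∀ l ∈ Λ, ((Ap p l).card : ℝ) ≤ X / (p * W) + 1 := by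
    intro p hp l hl
    rw [hP, mem_filter] at hp
    have hpI : Prime (p : ℤ) := Nat.prime_iff_prime_int.1 hp.2.1
    have hcop : IsCoprime (p : ℤ) (W : ℤ) := Nat.isCoprime_iff_coprime.2
      ((hp.2.1.coprime_iff_not_dvd).2 hp.2.2)
    have h1 : (Ap p l).card ≤ X / (p * W) + 1 := by
      apply card_class
      · intro t ht
        simp only [hAp, mem_filter, mem_Ioc] at ht
        exact ht.1.2
      · intro t ht t' ht'
        simp only [hAp, mem_filter, mem_Ioc] at ht ht'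
        have h2 : (W : ℤ) ∣ (t : ℤ) - t' :=
          dvd_sub (Int.natCast_dvd_natCast.2 ht.2.1) (Int.natCast_dvd_natCast.2 ht'.2.1)
        have h3 : (p : ℤ) ∣ l.1 * ((t : ℤ) - t') := by
          have h4 := dvd_sub ht.2.2 ht'.2.2
          have h5 : (l.1 * (t : ℤ) + l.2) - (l.1 * (t' : ℤ) + l.2) = l.1 * ((t : ℤ) - t') := by ring
          rwa [h5] at h4
        have h6 : (p : ℤ) ∣ (t : ℤ) - t' := by
          rcases hpI.dvd_or_dvd h3 with h7 | h7
          · exact absurd (Int.natCast_dvd_natCast.1 (h7.trans (hk l hl))) hp.2.2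
          · exact h7
        push_cast
        exact hcop.mul_dvd h6 h2
    have h2 : ((X / (p * W) : ℕ) : ℝ) ≤ X / (p * W) := by
      have := Nat.cast_div_le (α := ℝ) (m := X) (n := p * W)
      push_cast at this
      exact this
    have h3 : ((Ap p l).card : ℝ) ≤ ((X / (p * W) : ℕ) : ℝ) + 1 := by exact_mod_cast h1
    linarith
  have hcardDp : ∀ p ∈ P, ((Dp p).card : ℝ) ≤ Y / (p * W) + 1 := by
    intro p hp
    rw [hP, mem_filter] at hp
    have hcop : IsCoprime (p : ℤ) (W : ℤ) := Nat.isCoprime_iff_coprime.2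
      ((hp.2.1.coprime_iff_not_dvd).2 hp.2.2)
    have h1 : (Dp p).card ≤ Y / (p * W) + 1 := by
      apply card_class
      · intro t ht
        simp only [hDp, mem_filter, mem_Ioc] at ht
        exact ht.1.2
      · intro t ht t' ht'
        simp only [hDp, mem_filter, mem_Ioc] at ht ht'
        have h2 : (W : ℤ) ∣ (t : ℤ) - t' := by
          have h5 : (t : ℤ) - t' = (t - 1) - (t' - 1) := by ring
          rw [h5]
          exact dvd_sub ht.2.1 ht'.2.1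
        have h6 : (p : ℤ) ∣ (t : ℤ) - t' :=
          dvd_sub (Int.natCast_dvd_natCast.2 ht.2.2) (Int.natCast_dvd_natCast.2 ht'.2.2)
        push_cast
        exact hcop.mul_dvd h6 h2
    have h2 : ((Y / (p * W) : ℕ) : ℝ) ≤ Y / (p * W) := by
      have := Nat.cast_div_le (α := ℝ) (m := Y) (n := p * W)
      push_cast at this
      exact this
    have h3 : ((Dp p).card : ℝ) ≤ ((Y / (p * W) : ℕ) : ℝ) + 1 := by exact_mod_cast h1
    linarith
  have hbad : ((P.biUnion (fun p => Λ.biUnion (fun l => Ap p l ×ˢ Dp p))).card : ℝ) ≤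
      (X * Y : ℝ) / (32 * W ^ 2) + (Λ.card : ℝ) * (2 * X * (1 + Real.log Y) + Y) := by
    have h1 : (P.biUnion (fun p => Λ.biUnion (fun l => Ap p l ×ˢ Dp p))).card ≤
        ∑ p ∈ P, ∑ l ∈ Λ, (Ap p l).card * (Dp p).card := by
      refine card_biUnion_le.trans (Finset.sum_le_sum fun p _ => ?_)
      refine card_biUnion_le.trans (Finset.sum_le_sum fun l _ => ?_)
      rw [card_product]
    have h2 : ((P.biUnion (fun p => Λ.biUnion (fun l => Ap p l ×ˢ Dp p))).card : ℝ) ≤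
        ∑ p ∈ P, ∑ l ∈ Λ, ((Ap p l).card : ℝ) * ((Dp p).card : ℝ) := by exact_mod_cast h1
    have h3 : ∑ p ∈ P, ∑ l ∈ Λ, ((Ap p l).card : ℝ) * ((Dp p).card : ℝ) ≤
        ∑ p ∈ P, (Λ.card : ℝ) * ((X * Y : ℝ) / W ^ 2 * (1 / (p : ℝ) ^ 2) + 2 * X * (1 / (p : ℝ)) + 1) := by
      refine Finset.sum_le_sum fun p hp => ?_
      have h4 : ∀ l ∈ Λ, ((Ap p l).card : ℝ) * ((Dp p).card : ℝ) ≤
          ((X * Y : ℝ) / W ^ 2 * (1 / (p : ℝ) ^ 2) + 2 * X * (1 / (p : ℝ)) + 1) := by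
        intro l hl
        have h5 := hcardAp p hp l hl
        have h6 := hcardDp p hp
        have hp' := hp
        rw [hP, mem_filter] at hp'
        have hp0 : (0 : ℝ) < p := by exact_mod_cast hp'.2.1.pos
        have hYX' : (Y : ℝ) ≤ X := by exact_mod_cast hYX
        have hW1 : (1 : ℝ) ≤ W := by exact_mod_cast hW
        have hX0 : (0 : ℝ) ≤ X := Nat.cast_nonneg _
        calc ((Ap p l).card : ℝ) * ((Dp p).card : ℝ) ≤ (X / (p * W) + 1) * (Y / (p * W) + 1) :=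
              mul_le_mul h5 h6 (Nat.cast_nonneg _) (by positivity)
          _ = (X * Y : ℝ) / W ^ 2 * (1 / (p : ℝ) ^ 2) + (X / (p * W) + Y / (p * W)) + 1 := by
              field_simp
              ring
          _ ≤ _ := by
              have h7 : (X : ℝ) / (p * W) ≤ X * (1 / (p : ℝ)) := by
                rw [mul_one_div]
                apply div_le_div_of_nonneg_left hX0 hp0
                nlinarith
              have h8 : (Y : ℝ) / (p * W) ≤ X / (p * W) := div_le_div_of_nonneg_right hYX' (by positivity)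
              linarith
      calc ∑ l ∈ Λ, ((Ap p l).card : ℝ) * ((Dp p).card : ℝ) ≤ ∑ l ∈ Λ,
            ((X * Y : ℝ) / W ^ 2 * (1 / (p : ℝ) ^ 2) + 2 * X * (1 / (p : ℝ)) + 1) := Finset.sum_le_sum h4
        _ = _ := by rw [Finset.sum_const, nsmul_eq_mul]
    have h4 : ∑ p ∈ P, (Λ.card : ℝ) * ((X * Y : ℝ) / W ^ 2 * (1 / (p : ℝ) ^ 2) + 2 * X * (1 / (p : ℝ)) + 1)
        = (Λ.card : ℝ) * ((X * Y : ℝ) / W ^ 2 * (∑ p ∈ P, 1 / (p : ℝ) ^ 2) +
          2 * X * (∑ p ∈ P, 1 / (p : ℝ)) + P.card) := by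
      rw [← Finset.mul_sum, Finset.sum_add_distrib, Finset.sum_add_distrib, ← Finset.mul_sum,
        ← Finset.mul_sum]
      simp
    have h5 : ∑ p ∈ P, 1 / (p : ℝ) ^ 2 ≤ 1 / (n : ℝ) :=
      (Finset.sum_le_sum_of_subset_of_nonneg (filter_subset _ _) (fun _ _ _ => by positivity)).trans
        (sum_inv_sq n Y hn)
    have h6 : ∑ p ∈ P, 1 / (p : ℝ) ≤ 1 + Real.log Y := by
      refine (Finset.sum_le_sum_of_subset_of_nonneg ?_ (fun _ _ _ => by positivity)).trans (sum_inv Y)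
      intro p hp
      rw [hP, mem_filter, mem_Ioc] at hp
      rw [mem_Ioc]
      exact ⟨hp.2.1.pos, hp.1.2⟩
    have h7 : (P.card : ℝ) ≤ Y := by
      have h8 : P.card ≤ (Ioc n Y).card := card_le_card (filter_subset _ _)
      rw [Nat.card_Ioc] at h8
      exact_mod_cast h8.trans (Nat.sub_le _ _)
    have hn0 : (0 : ℝ) < n := by exact_mod_cast hn
    have h9 : (Λ.card : ℝ) * ((X * Y : ℝ) / W ^ 2 * (1 / n)) ≤ (X * Y : ℝ) / (32 * W ^ 2) := by
      have h10 : 32 * (Λ.card : ℝ) ≤ n := by exact_mod_cast hΛ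
      rw [show (Λ.card : ℝ) * ((X * Y : ℝ) / W ^ 2 * (1 / n)) = (Λ.card * (X * Y : ℝ)) / (n * W ^ 2) by
        field_simp]
      rw [div_le_div_iff₀ (by positivity) (by positivity)]
      have hXY : (0 : ℝ) ≤ X * Y := by positivity
      have : (Λ.card : ℝ) * (X * Y) * (32 * W ^ 2) = (32 * Λ.card) * ((X * Y) * W ^ 2) := by ring
      rw [this]
      calc (32 * (Λ.card : ℝ)) * ((X * Y) * W ^ 2) ≤ n * ((X * Y) * W ^ 2) :=
            mul_le_mul_of_nonneg_right h10 (by positivity)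
        _ = _ := by ring
    have hX0 : (0 : ℝ) ≤ X := Nat.cast_nonneg _
    calc _ ≤ _ := h2
      _ ≤ _ := h3
      _ = _ := h4
      _ ≤ (Λ.card : ℝ) * ((X * Y : ℝ) / W ^ 2 * (1 / n) + 2 * X * (1 + Real.log Y) + Y) := by
          apply mul_le_mul_of_nonneg_left _ (Nat.cast_nonneg _)
          have h11 : (X * Y : ℝ) / W ^ 2 * (∑ p ∈ P, 1 / (p : ℝ) ^ 2) ≤ (X * Y : ℝ) / W ^ 2 * (1 / n) :=
            mul_le_mul_of_nonneg_left h5 (by positivity)
          have h12 : 2 * X * (∑ p ∈ P, 1 / (p : ℝ)) ≤ 2 * X * (1 + Real.log Y) :=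
            mul_le_mul_of_nonneg_left h6 (by positivity)
          linarith
      _ = (Λ.card : ℝ) * ((X * Y : ℝ) / W ^ 2 * (1 / n)) +
            (Λ.card : ℝ) * (2 * X * (1 + Real.log Y) + Y) := by ring
      _ ≤ _ := by linarith
  have htot : (SA.card : ℝ) * SD.card ≤ ((base Λ W X Y).card : ℝ) +
      ((P.biUnion (fun p => Λ.biUnion (fun l => Ap p l ×ˢ Dp p))).card : ℝ) := by
    have h1 := (card_le_card hsub).trans (card_union_le _ _)
    rw [card_product] at h1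
    exact_mod_cast h1
  have h1 : ((X / W : ℕ) : ℝ) * ((Y / W : ℕ) : ℝ) ≤ (SA.card : ℝ) * SD.card := by
    rw [hSAc]
    exact mul_le_mul_of_nonneg_left (by exact_mod_cast hSDc) (Nat.cast_nonneg _)
  linarith

/-- a positive proportion of the pairs in a box are base pairs -/
theorem base_prop {Λ : Finset (ℤ × ℤ)} {W n : ℕ} (hW : 0 < W) (hk : ∀ l ∈ Λ, l.1 ∣ (W : ℤ))
    (hn : 1 ≤ n) (hΛ : 32 * Λ.card ≤ n) (hnW : ∀ p : ℕ, p.Prime → p ≤ n → p ∣ W) :
    ∃ Y₀ : ℕ, ∀ X Y : ℕ, Y₀ ≤ Y → Y ≤ X →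
      (X * Y : ℝ) / (8 * W ^ 2) ≤ ((base Λ W X Y).card : ℝ) := by
  have hWr : (0 : ℝ) < W := by exact_mod_cast hW
  -- `1 + log Y ≤ δ Y`
  obtain ⟨δ, hδ⟩ : ∃ δ : ℝ, δ = 1 / (128 * W ^ 2 * (Λ.card + 1)) := ⟨_, rfl⟩
  have hδ0 : 0 < δ := by rw [hδ]; positivity
  have h1 : ∀ᶠ Y : ℝ in atTop, Real.log Y ≤ δ * Y := by
    have := Real.isLittleO_log_id_atTop.bound hδ0
    filter_upwards [this, eventually_ge_atTop (1 : ℝ)] with Y h h2
    rw [id, Real.norm_of_nonneg (Real.log_nonneg h2), Real.norm_of_nonneg (by linarith)] at h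
    exact h
  have h2 : ∀ᶠ Y : ℕ in atTop, Real.log (Y : ℝ) ≤ δ * Y := tendsto_natCast_atTop_atTop.eventually h1
  have h3 : ∀ᶠ Y : ℕ in atTop, (2 / δ : ℝ) ≤ Y := tendsto_natCast_atTop_atTop.eventually_ge_atTop _
  have h4 : ∀ᶠ Y : ℕ in atTop, (2 * W : ℝ) ≤ Y := tendsto_natCast_atTop_atTop.eventually_ge_atTop _
  obtain ⟨Y₀, hY₀⟩ := eventually_atTop.1 (h2.and (h3.and h4))
  refine ⟨Y₀, fun X Y hY hYX => ?_⟩
  obtain ⟨hl, hd, hw⟩ := hY₀ Y hY
  have hb := base_ge hW hk hn hΛ hnW X Y hYX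
  refine le_trans ?_ hb
  have hYX' : (Y : ℝ) ≤ X := by exact_mod_cast hYX
  have hY0 : (0 : ℝ) < Y := by linarith
  have hX0 : (0 : ℝ) < X := by linarith
  have hdiv : ∀ Z : ℕ, (2 * W : ℝ) ≤ Z → (Z : ℝ) / (2 * W) ≤ ((Z / W : ℕ) : ℝ) := by
    intro Z hZ
    have h5 : Z < (Z / W + 1) * W := by
      have := Nat.lt_div_mul_add (a := Z) (b := W) hW
      nlinarith
    have h6 : (Z : ℝ) < ((Z / W : ℕ) + 1) * W := by exact_mod_cast h5
    rw [div_le_iff₀ (by positivity)]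
    nlinarith
  have h5 := hdiv X (by linarith)
  have h6 := hdiv Y hw
  have h7 : (X : ℝ) / (2 * W) * (Y / (2 * W)) ≤ ((X / W : ℕ) : ℝ) * ((Y / W : ℕ) : ℝ) :=
    mul_le_mul h5 h6 (by positivity) (by positivity)
  have h8 : (X : ℝ) / (2 * W) * (Y / (2 * W)) = (X * Y : ℝ) / (4 * W ^ 2) := by
    field_simp
    ring
  have h9 : 2 ≤ δ * Y := by
    rw [div_le_iff₀ hδ0] at hd
    linarith
  have h10 : (Λ.card : ℝ) * (2 * X * (1 + Real.log Y) + Y) ≤ (X * Y : ℝ) / (16 * W ^ 2) := by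
    have h11 : 2 * X * (1 + Real.log Y) + Y ≤ 2 * X * (2 * (δ * Y)) + X * (δ * Y) := by
      have h12 : 1 + Real.log Y ≤ 2 * (δ * Y) := by linarith
      have h13 : 2 * (X : ℝ) * (1 + Real.log Y) ≤ 2 * X * (2 * (δ * Y)) :=
        mul_le_mul_of_nonneg_left h12 (by positivity)
      have h14 : (Y : ℝ) ≤ X * (δ * Y) := by nlinarith
      linarith
    have h12 : 2 * (X : ℝ) * (2 * (δ * Y)) + X * (δ * Y) ≤ 8 * (δ * (X * Y)) := by
      have : 0 ≤ δ * (X * Y) := by positivity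
      nlinarith
    have h13 : (Λ.card : ℝ) * (8 * (δ * (X * Y))) ≤ (X * Y : ℝ) / (16 * W ^ 2) := by
      rw [hδ]
      rw [show (Λ.card : ℝ) * (8 * (1 / (128 * W ^ 2 * (Λ.card + 1)) * (X * Y))) =
        (Λ.card / (Λ.card + 1 : ℝ)) * ((X * Y : ℝ) / (16 * W ^ 2)) by field_simp; ring]
      have h14 : (Λ.card : ℝ) / (Λ.card + 1) ≤ 1 := by
        rw [div_le_one (by positivity)]
        linarith
      calc _ ≤ 1 * ((X * Y : ℝ) / (16 * W ^ 2)) := mul_le_mul_of_nonneg_right h14 (by positivity)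
        _ = _ := one_mul _
    calc _ ≤ (Λ.card : ℝ) * (8 * (δ * (X * Y))) :=
          mul_le_mul_of_nonneg_left (h11.trans h12) (Nat.cast_nonneg _)
      _ ≤ _ := h13
  have h11 : (X * Y : ℝ) / (4 * W ^ 2) - (X * Y : ℝ) / (32 * W ^ 2) - (X * Y : ℝ) / (16 * W ^ 2) =
      (X * Y : ℝ) * 5 / (32 * W ^ 2) := by
    field_simp
    ring
  have h12 : (X * Y : ℝ) / (8 * W ^ 2) ≤ (X * Y : ℝ) * 5 / (32 * W ^ 2) := by
    rw [div_le_div_iff₀ (by positivity) (by positivity)]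
    have : (0 : ℝ) ≤ X * Y * W ^ 2 := by positivity
    nlinarith
  linarith

/-- **Positive proportion.** -/
theorem proportion {Λ : Finset (ℤ × ℤ)} {W N n : ℕ} {Q : ℤ → ℤ → Prop} (hW : 0 < W)
    (hk : ∀ l ∈ Λ, l.1 ∣ (W : ℤ)) (hn : 1 ≤ n) (hΛ : 32 * Λ.card ≤ n) (hNn : N + 1 ≤ n)
    (hnW : ∀ p : ℕ, p.Prime → p ≤ n → p ∣ W)
    (hno : ∀ A B : ℕ → ℤ, ¬ Chn Λ W Q N A B) :
    ∃ c : ℝ, 0 < c ∧ ∃ Y₀ : ℕ, ∀ X Y : ℕ, Y₀ ≤ Y → Y ≤ X →
      c * X * Y ≤ (Set.ncard {ad : ℤ × ℤ | 1 ≤ ad.1 ∧ ad.1 ≤ X ∧ 1 ≤ ad.2 ∧ ad.2 ≤ Y ∧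
        (W : ℤ) ∣ ad.1 ∧ (W : ℤ) ∣ ad.2 - 1 ∧ Q ad.1 ad.2} : ℝ) := by
  classical
  obtain ⟨F, hF1, hF2⟩ := syndetic hW hk (fun p hp h => hnW p hp (by omega))
    (fun p hp h => hnW p hp (by omega)) hno
  obtain ⟨Y₀, hY₀⟩ := base_prop hW hk hn hΛ hnW
  have hWr : (0 : ℝ) < W := by exact_mod_cast hW
  set U : ℕ := ∑ f ∈ F, f.1.natAbs with hU
  set Dm : ℕ := ∑ f ∈ F, f.2.natAbs with hDm
  have hUf : ∀ f ∈ F, f.1 ≤ U := by
    intro f hf
    have h1 : f.1.natAbs ≤ U :=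
      Finset.single_le_sum (f := fun f : ℤ × ℤ => f.1.natAbs) (fun _ _ => Nat.zero_le _) hf
    have h2 := (hF1 f hf).1
    omega
  have hDf : ∀ f ∈ F, f.2 ≤ Dm := by
    intro f hf
    have h1 : f.2.natAbs ≤ Dm :=
      Finset.single_le_sum (f := fun f : ℤ × ℤ => f.2.natAbs) (fun _ _ => Nat.zero_le _) hf
    have h2 := (hF1 f hf).2.1
    omega
  set K : ℕ := U + Dm + 1 with hK
  have hKpos : 0 < K := by omega
  refine ⟨1 / (32 * K ^ 2 * W ^ 2 * (F.card + 1)), by positivity, K * (Y₀ + 1), ?_⟩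
  intro X Y hY hYX
  set X1 := X / K with hX1
  set Y1 := Y / K with hY1
  have hYX1 : Y1 ≤ X1 := Nat.div_le_div_right hYX
  have hX1K : X1 * K ≤ X := Nat.div_mul_le_self X K
  have hY1K : Y1 * K ≤ Y := Nat.div_mul_le_self Y K
  have hY1Y₀ : Y₀ + 1 ≤ Y1 := by
    rw [hY1, Nat.le_div_iff_mul_le hKpos, Nat.mul_comm]
    exact hY
  set S := base Λ W X1 Y1 with hS
  have hSge := hY₀ X1 Y1 (by omega) hYX1
  have hSmem : ∀ z ∈ S, 0 < z.1 ∧ z.1 ≤ X1 ∧ 0 < z.2 ∧ z.2 ≤ Y1 ∧ Cls Λ W z.1 z.2 := by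
    intro z hz
    rw [hS, base, mem_filter, mem_product, mem_Ioc, mem_Ioc] at hz
    exact ⟨hz.1.1.1, hz.1.1.2, hz.1.2.1, hz.1.2.2, hz.2⟩
  have hchoice : ∀ z : ℕ × ℕ, ∃ f : ℤ × ℤ, z ∈ S → f ∈ F ∧
      Q ((z.1 : ℤ) + z.2 * f.1) (z.2 * f.2) := by
    intro z
    by_cases hz : z ∈ S
    · obtain ⟨f, hf1, hf2⟩ := hF2 z.1 z.2 (hSmem z hz).2.2.2.2
      exact ⟨f, fun _ => ⟨hf1, hf2⟩⟩
    · exact ⟨0, fun h => absurd h hz⟩
  choose f hf using hchoice
  set Φ : ℕ × ℕ → ℤ × ℤ := fun z => ((z.1 : ℤ) + z.2 * (f z).1, (z.2 : ℤ) * (f z).2) with hΦ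
  have hfiber : S.card ≤ F.card * (S.image Φ).card := by
    apply Finset.card_le_mul_card_image
    intro b _
    refine Finset.card_le_card_of_injOn f ?_ ?_
    · intro z hz
      simp only [coe_filter, Set.mem_ofPred_eq] at hz
      exact (hf z hz.1).1
    · intro z hz w hw hzw
      simp only [coe_filter, Set.mem_ofPred_eq] at hz hw
      have h1 : Φ z = Φ w := hz.2.trans hw.2.symm
      simp only [hΦ, Prod.mk.injEq] at h1
      rw [hzw] at h1
      have hpos : (f w).2 ≠ 0 := ((hF1 _ (hf w hw.1).1).2.1).ne'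
      have h2 : (z.2 : ℤ) = w.2 := mul_right_cancel₀ hpos h1.2
      have h3 : (z.1 : ℤ) = w.1 := by
        have := h1.1
        rw [h2] at this
        linarith
      exact Prod.ext (by exact_mod_cast h3) (by exact_mod_cast h2)
  set T : Set (ℤ × ℤ) := {ad : ℤ × ℤ | 1 ≤ ad.1 ∧ ad.1 ≤ X ∧ 1 ≤ ad.2 ∧ ad.2 ≤ Y ∧
        (W : ℤ) ∣ ad.1 ∧ (W : ℤ) ∣ ad.2 - 1 ∧ Q ad.1 ad.2} with hT
  have hTfin : T.Finite := by
    apply ((Set.finite_Icc (1 : ℤ) X).prod (Set.finite_Icc (1 : ℤ) Y)).subset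
    rintro ad ⟨h1, h2, h3, h4, _⟩
    exact ⟨⟨h1, h2⟩, h3, h4⟩
  have hsub : ((S.image Φ : Finset (ℤ × ℤ)) : Set (ℤ × ℤ)) ⊆ T := by
    intro y hy
    rw [mem_coe, mem_image] at hy
    obtain ⟨z, hz, rfl⟩ := hy
    obtain ⟨h1, h2⟩ := hf z hz
    obtain ⟨hz1, hz2, hz3, hz4, hcl⟩ := hSmem z hz
    obtain ⟨hf1, hf2, hf3, hf4⟩ := hF1 _ h1
    have hUf' := hUf _ h1
    have hDf' := hDf _ h1
    have hz1' : (1 : ℤ) ≤ z.1 := by exact_mod_cast hz1
    have hz2' : (z.1 : ℤ) ≤ X1 := by exact_mod_cast hz2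
    have hz3' : (1 : ℤ) ≤ z.2 := by exact_mod_cast hz3
    have hz4' : (z.2 : ℤ) ≤ Y1 := by exact_mod_cast hz4
    have hYX1' : (Y1 : ℤ) ≤ X1 := by exact_mod_cast hYX1
    have hX1K' : (X1 : ℤ) * K ≤ X := by exact_mod_cast hX1K
    have hY1K' : (Y1 : ℤ) * K ≤ Y := by exact_mod_cast hY1K
    have hKz : (K : ℤ) = U + Dm + 1 := by rw [hK]; push_cast; ring
    have hU0 : (0 : ℤ) ≤ U := Int.natCast_nonneg _
    have hD0 : (0 : ℤ) ≤ Dm := Int.natCast_nonneg _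
    refine ⟨?_, ?_, ?_, ?_, ?_, ?_, h2⟩
    · simp only [hΦ]
      have : 0 ≤ (z.2 : ℤ) * (f z).1 := by positivity
      linarith
    · simp only [hΦ]
      have h3 : (z.2 : ℤ) * (f z).1 ≤ X1 * U := mul_le_mul (hz4'.trans hYX1') hUf' hf1 (by linarith)
      have h4 : (X1 : ℤ) + X1 * U ≤ X1 * K := by
        rw [hKz]
        have : (0 : ℤ) ≤ X1 * Dm := by positivity
        nlinarith
      linarith
    · simp only [hΦ]
      nlinarith
    · simp only [hΦ]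
      have h3 : (z.2 : ℤ) * (f z).2 ≤ Y1 * K :=
        mul_le_mul hz4' (by rw [hKz]; linarith) hf2.le (by linarith)
      linarith
    · simp only [hΦ]
      exact dvd_add hcl.2.2.1 (Dvd.dvd.mul_left hf3 _)
    · simp only [hΦ]
      have h3 : (z.2 : ℤ) * (f z).2 - 1 = ((z.2 : ℤ) - 1) * (f z).2 + ((f z).2 - 1) := by ring
      rw [h3]
      exact dvd_add (Dvd.dvd.mul_right hcl.2.2.2.1 _) hf4
  have hcard : ((S.image Φ).card : ℝ) ≤ (Set.ncard T : ℝ) := by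
    rw [Nat.cast_le, ← Set.ncard_coe_finset]
    exact Set.ncard_le_ncard hsub hTfin
  have hfiber' : (S.card : ℝ) ≤ F.card * (S.image Φ).card := by exact_mod_cast hfiber
  have hK0 : (0 : ℝ) < K := by exact_mod_cast hKpos
  have hX1' : (X : ℝ) / (2 * K) ≤ X1 := by
    have h1 : X < (X1 + 1) * K := by
      have := Nat.lt_div_mul_add (a := X) (b := K) hKpos
      rw [← hX1] at this
      nlinarith
    have h2 : 1 ≤ X1 := by omega
    have h3 : (X : ℝ) < (X1 + 1) * K := by exact_mod_cast h1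
    have h4 : (1 : ℝ) ≤ X1 := by exact_mod_cast h2
    rw [div_le_iff₀ (by positivity)]
    nlinarith
  have hY1' : (Y : ℝ) / (2 * K) ≤ Y1 := by
    have h1 : Y < (Y1 + 1) * K := by
      have := Nat.lt_div_mul_add (a := Y) (b := K) hKpos
      rw [← hY1] at this
      nlinarith
    have h2 : 1 ≤ Y1 := by omega
    have h3 : (Y : ℝ) < (Y1 + 1) * K := by exact_mod_cast h1
    have h4 : (1 : ℝ) ≤ Y1 := by exact_mod_cast h2
    rw [div_le_iff₀ (by positivity)]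
    nlinarith
  have hprod : (X : ℝ) / (2 * K) * (Y / (2 * K)) ≤ X1 * Y1 :=
    mul_le_mul hX1' hY1' (by positivity) (by positivity)
  have hfin : (X : ℝ) / (2 * K) * (Y / (2 * K)) / (8 * W ^ 2) ≤ (F.card + 1) * (Set.ncard T : ℝ) := by
    calc (X : ℝ) / (2 * K) * (Y / (2 * K)) / (8 * W ^ 2) ≤ X1 * Y1 / (8 * W ^ 2) :=
          div_le_div_of_nonneg_right hprod (by positivity)
      _ ≤ S.card := hSge
      _ ≤ F.card * (S.image Φ).card := hfiber'
      _ ≤ F.card * (Set.ncard T : ℝ) := mul_le_mul_of_nonneg_left hcard (Nat.cast_nonneg _)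
      _ ≤ (F.card + 1) * (Set.ncard T : ℝ) :=
          mul_le_mul_of_nonneg_right (by linarith) (Nat.cast_nonneg _)
  have hFc : (0 : ℝ) < F.card + 1 := by positivity
  have h1 : 1 / (32 * K ^ 2 * W ^ 2 * (F.card + 1)) * X * Y =
      ((X : ℝ) / (2 * K) * (Y / (2 * K)) / (8 * W ^ 2)) / (F.card + 1) := by
    field_simp
    ring
  rw [h1, div_le_iff₀ hFc]
  linarith

end Pool.Agent.K1H86.PP
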