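import Mathlib
import Pool.Agent.Y876.HS.Fin

/-! Sets of natural numbers with many members below arbitrarily large `x`, and a change of variable
(helper86). -/

set_option autoImplicit false

namespace Pool.Agent.K1H86.PP

open Finset Filter

/-- for arbitrarily large `x` at least `x / (log x) ^ C` numbers `q ≤ x` have the property `P` -/
def Often (C : ℕ) (P : ℕ → Prop) : Prop :=
  ∃ᶠ x : ℝ in atTop, x / Real.log x ^ C ≤ (Set.ncard {q : ℕ | (q : ℝ) ≤ x ∧ P q} : ℝ)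

theorem fin_le (P : ℕ → Prop) (x : ℝ) : {q : ℕ | (q : ℝ) ≤ x ∧ P q}.Finite := by
  apply (Set.finite_Iic ⌊x⌋₊).subset
  intro n hn
  exact Nat.le_floor hn.1

theorem Often.mono {C : ℕ} {P Q : ℕ → Prop} (h : Often C P) (hPQ : ∀ q, P q → Q q) : Often C Q := by
  refine Frequently.mono h fun x hx => hx.trans ?_
  refine Nat.cast_le.2 (Set.ncard_le_ncard ?_ (fin_le Q x))
  rintro q ⟨h1, h2⟩
  exact ⟨h1, hPQ q h2⟩

/-- `x / (log x) ^ C` tends to infinity -/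
theorem grow (C : ℕ) (M : ℝ) : ∀ᶠ x : ℝ in atTop, M ≤ x / Real.log x ^ C := by
  have h1 : ∀ᶠ x : ℝ in atTop, Real.log x ^ C ≤ x ^ (1 / 2 : ℝ) := by
    have h2 := (isLittleO_log_rpow_rpow_atTop (s := (1 / 2 : ℝ)) (C : ℝ) (by norm_num)).bound
      (c := 1) one_pos
    filter_upwards [h2, eventually_ge_atTop (1 : ℝ)] with x h3 h4
    have h5 : 0 ≤ Real.log x := Real.log_nonneg h4
    rw [Real.rpow_natCast, Real.norm_of_nonneg (by positivity), Real.norm_of_nonneg (by positivity),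
      one_mul] at h3
    exact h3
  have h2 : Tendsto (fun x : ℝ => x ^ (1 / 2 : ℝ)) atTop atTop := tendsto_rpow_atTop (by norm_num)
  filter_upwards [h1, h2.eventually_ge_atTop M, eventually_gt_atTop (1 : ℝ)] with x h3 h4 h5
  have h6 : 0 < Real.log x := Real.log_pos h5
  refine h4.trans ?_
  rw [le_div_iff₀ (by positivity)]
  calc x ^ (1 / 2 : ℝ) * Real.log x ^ C ≤ x ^ (1 / 2 : ℝ) * x ^ (1 / 2 : ℝ) :=
        mul_le_mul_of_nonneg_left h3 (by positivity)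
    _ = x := by rw [← Real.rpow_add (by linarith)]; norm_num

theorem Often.infinite {C : ℕ} {P : ℕ → Prop} (h : Often C P) : {q : ℕ | P q}.Infinite := by
  intro hfin
  obtain ⟨x, h1, h2⟩ := (h.and_eventually (grow C ({q : ℕ | P q}.ncard + 1))).exists
  have h3 : Set.ncard {q : ℕ | (q : ℝ) ≤ x ∧ P q} ≤ {q : ℕ | P q}.ncard :=
    Set.ncard_le_ncard (fun q hq => hq.2) hfin
  have h4 : (Set.ncard {q : ℕ | (q : ℝ) ≤ x ∧ P q} : ℝ) ≤ ({q : ℕ | P q}.ncard : ℝ) := by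
    exact_mod_cast h3
  linarith

/-- a larger exponent, and room for a constant -/
theorem room (C : ℕ) (M : ℝ) : ∀ᶠ x : ℝ in atTop, x / Real.log x ^ (C + 1) + M ≤ x / Real.log x ^ C := by
  filter_upwards [grow C (2 * M), Real.tendsto_log_atTop.eventually_ge_atTop 2,
    eventually_gt_atTop (1 : ℝ)] with x h1 h2 h3
  have h4 : 0 < Real.log x := by linarith
  have h5 : x / Real.log x ^ (C + 1) ≤ (x / Real.log x ^ C) / 2 := by
    rw [pow_succ, ← div_div]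
    exact div_le_div_of_nonneg_left (by positivity) (by norm_num) h2
  linarith

/-- change of the variable -/
theorem Often.shift {C : ℕ} {P Q : ℕ → Prop} (D b : ℤ) (hD : 0 < D) (n₀ : ℕ) (h : Often C P)
    (hPQ : ∀ n : ℕ, n₀ ≤ n → P n → ∃ q : ℕ, (q : ℤ) = D * n + b ∧ Q q) : Often (C + 2) Q := by
  classical
  have hDr : (1 : ℝ) ≤ (D : ℝ) := by exact_mod_cast hD
  have ht : Tendsto (fun x : ℝ => (D : ℝ) * x + |(b : ℝ)|) atTop atTop :=
    tendsto_atTop_add_const_right _ _ (tendsto_id.const_mul_atTop (by linarith))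
  have hls := ht.eventually (Pool.Agent.Y876.HS.log_shift |(b : ℝ)| (D : ℝ) (abs_nonneg _) hDr C)
  have hroom := ht.eventually (room (C + 1) n₀)
  unfold Often
  refine ht.frequently ((h.and_eventually (hls.and hroom)).mono ?_)
  rintro x ⟨h1, h2, h3⟩
  have e1 : ((D : ℝ) * x + |(b : ℝ)| - |(b : ℝ)|) / (D : ℝ) = x := by
    field_simp
    ring
  rw [e1] at h2
  have h4 : ((D : ℝ) * x + |(b : ℝ)|) / Real.log ((D : ℝ) * x + |(b : ℝ)|) ^ (C + 1 + 1) + n₀ ≤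
      (Set.ncard {n : ℕ | (n : ℝ) ≤ x ∧ P n} : ℝ) := by linarith
  -- the map
  have hch : ∀ n : ℕ, ∃ q : ℕ, (n₀ ≤ n ∧ P n) → (q : ℤ) = D * n + b ∧ Q q := by
    intro n
    by_cases hn : n₀ ≤ n ∧ P n
    · obtain ⟨q, hq⟩ := hPQ n hn.1 hn.2
      exact ⟨q, fun _ => hq⟩
    · exact ⟨0, fun h => absurd h hn⟩
  choose f hf using hch
  have h5 : Set.ncard {n : ℕ | (n : ℝ) ≤ x ∧ P n} ≤ n₀ + Set.ncard {n : ℕ | (n : ℝ) ≤ x ∧ n₀ ≤ n ∧ P n} := by
    have h6 : {n : ℕ | (n : ℝ) ≤ x ∧ P n} ⊆ (Set.Iio n₀) ∪ {n : ℕ | (n : ℝ) ≤ x ∧ n₀ ≤ n ∧ P n} := by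
      rintro n ⟨h7, h8⟩
      rcases Nat.lt_or_ge n n₀ with h9 | h9
      · exact Or.inl h9
      · exact Or.inr ⟨h7, h9, h8⟩
    refine (Set.ncard_le_ncard h6 ((Set.finite_Iio n₀).union (fin_le _ x))).trans ?_
    refine (Set.ncard_union_le _ _).trans ?_
    rw [Set.ncard_eq_toFinset_card' (Set.Iio n₀)]
    simp
  have h6 : Set.ncard {n : ℕ | (n : ℝ) ≤ x ∧ n₀ ≤ n ∧ P n} ≤
      Set.ncard {q : ℕ | (q : ℝ) ≤ (D : ℝ) * x + |(b : ℝ)| ∧ Q q} := by
    refine Set.ncard_le_ncard_of_injOn f ?_ ?_ (fin_le _ _)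
    · rintro n ⟨h7, h8⟩
      obtain ⟨h9, h10⟩ := hf n h8
      refine ⟨?_, h10⟩
      have h11 : ((f n : ℕ) : ℝ) = D * n + b := by exact_mod_cast h9
      rw [h11]
      have h12 : (D : ℝ) * n ≤ D * x := mul_le_mul_of_nonneg_left h7 (by linarith)
      have h13 := le_abs_self (b : ℝ)
      linarith
    · rintro n ⟨_, h8⟩ n' ⟨_, h8'⟩ he
      have h9 := (hf n h8).1
      have h10 := (hf n' h8').1
      rw [he, h10] at h9
      have h11 : D * (n : ℤ) = D * n' := by linarith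
      exact_mod_cast mul_left_cancel₀ hD.ne' h11
  have h7 : (Set.ncard {n : ℕ | (n : ℝ) ≤ x ∧ P n} : ℝ) ≤ n₀ +
      (Set.ncard {q : ℕ | (q : ℝ) ≤ (D : ℝ) * x + |(b : ℝ)| ∧ Q q} : ℝ) := by
    exact_mod_cast h5.trans (Nat.add_le_add_left h6 _)
  have h8 : ((D : ℝ) * x + |(b : ℝ)|) / Real.log ((D : ℝ) * x + |(b : ℝ)|) ^ (C + 2) =
      ((D : ℝ) * x + |(b : ℝ)|) / Real.log ((D : ℝ) * x + |(b : ℝ)|) ^ (C + 1 + 1) := rfl
  rw [h8]
  linarith

/-- primitive forms with positive leading coefficients are proportional only if they are equal -/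
theorem prim_eq {a b a' b' : ℤ} (ha : 0 < a) (ha' : 0 < a') (hc : IsCoprime a b)
    (hc' : IsCoprime a' b') (h : a * b' = a' * b) : a = a' ∧ b = b' := by
  have h1 : a ∣ a' := hc.dvd_of_dvd_mul_right (Dvd.intro _ h)
  have h2 : a' ∣ a := hc'.dvd_of_dvd_mul_right (Dvd.intro _ h.symm)
  have h3 : a = a' := Int.dvd_antisymm ha.le ha'.le h1 h2
  refine ⟨h3, ?_⟩
  rw [h3] at h
  exact (mul_left_cancel₀ ha'.ne' h).symm

theorem exists_nat_of_int {ι : Type*} {p : ℕ} (hp : p.Prime) (D b : ι → ℤ) (S : Finset ι)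
    (h : ∃ n : ℤ, ∀ i ∈ S, ¬ (p : ℤ) ∣ D i * n + b i) :
    ∃ n : ℕ, ∀ i ∈ S, ¬ (p : ℤ) ∣ D i * n + b i := by
  obtain ⟨n, hn⟩ := h
  have hp0 : (p : ℤ) ≠ 0 := by exact_mod_cast hp.ne_zero
  refine ⟨(n % p).toNat, fun i hi hd => hn i hi ?_⟩
  rw [Int.toNat_of_nonneg (Int.emod_nonneg _ hp0)] at hd
  have h1 : (p : ℤ) ∣ n - n % p := Int.dvd_self_sub_emod
  have h2 : D i * n + b i = (D i * (n % p) + b i) + D i * (n - n % p) := by ring
  rw [h2]
  exact dvd_add hd (Dvd.dvd.mul_left h1 _)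

end Pool.Agent.K1H86.PP
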