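import Mathlib
import Pool.Agent.K1H86.PP.Count
import Pool.Agent.K1H86.PP.Often
import Pool.Agent.Y876.FF.Fin

/-! Pairs `(a, d)` for which `q` and `a + q d` are prime for many `q`, while any finite set of other forms
has no prime values (helper86). -/

set_option autoImplicit false

namespace Pool.Agent.K1H86.PP

open Finset Filter

/-- for every finite set `R` of forms `e x + c` different from `x` and from `d x + a` there are many primes
`q` for which `a + q d` is prime and no `|c + q e|`, `(e, c) ∈ R`, is prime -/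
def Iso (C : ℕ) (a d : ℤ) : Prop :=
  ∀ R : Finset (ℤ × ℤ), (∀ r ∈ R, 1 ≤ r.1 ∧ r ≠ (1, 0) ∧ r ≠ (d, a)) →
    Often C (fun q => q.Prime ∧ (∃ p : ℕ, p.Prime ∧ a + q * d = p) ∧
      ∀ r ∈ R, ¬ (r.2 + q * r.1).natAbs.Prime)

noncomputable def C45 : ℕ := Pool.Agent.Y876.FF.CC 45 + 5

theorem Chn.mono_lt {Λ : Finset (ℤ × ℤ)} {W m : ℕ} {Q : ℤ → ℤ → Prop} {A B : ℕ → ℤ}
    (h : Chn Λ W Q m A B) {i j : ℕ} (hij : i < j) (hj : j ≤ m) : A i < A j := by
  obtain ⟨u, D, _, h1, h2, _⟩ := h.rel i j hij hj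
  have h3 := h.pos i (by omega)
  rw [h2]
  nlinarith

theorem Chn.div_eq {Λ : Finset (ℤ × ℤ)} {W m : ℕ} {Q : ℤ → ℤ → Prop} {A B : ℕ → ℤ}
    (h : Chn Λ W Q m A B) {i j : ℕ} (hij : i < j) (hj : j ≤ m) :
    A j = (A j / A i) * A i ∧ ¬ Q (B j - (A j / A i) * B i) (A j / A i) ∧ 1 < A j / A i := by
  obtain ⟨u, D, _, h1, h2, h3, h4⟩ := h.rel i j hij hj
  have h5 := h.pos i (by omega)
  have h6 : A j / A i = D := by rw [h2]; exact Int.mul_ediv_cancel _ h5.ne'
  rw [h6]
  have h7 : B j - D * B i = u := by rw [h3]; ring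
  rw [h7]
  exact ⟨h2, h4, h1⟩

/-- the local condition for the forms of a chain, and they are primitive -/
theorem Chn.local1 {W m : ℕ} {Q : ℤ → ℤ → Prop} {A B : ℕ → ℤ}
    (h : Chn {((1 : ℤ), (0 : ℤ))} W Q m A B) (p : ℕ) (hp : p.Prime) :
    ∃ n : ℤ, ∀ i ≤ m, ¬ (p : ℤ) ∣ A i * n + B i := by
  by_cases hpW : p ∣ W
  · refine ⟨1, fun i hi hd => ?_⟩
    have hpW' : (p : ℤ) ∣ (W : ℤ) := Int.natCast_dvd_natCast.2 hpW
    have h1 := hpW'.trans (h.amod i hi)
    have h2 := hpW'.trans (h.bmod i hi)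
    have h3 : (p : ℤ) ∣ 1 := by
      have h4 : (1 : ℤ) = (A i * 1 + B i) - (A i - 1) - B i := by ring
      rw [h4]
      exact dvd_sub (dvd_sub hd h1) h2
    exact (Nat.prime_iff_prime_int.1 hp).not_isUnit (isUnit_of_dvd_one h3)
  · obtain ⟨n, hn⟩ := h.loc p hp hpW (1, 0) (by simp)
    refine ⟨n, fun i hi hd => hn i hi ?_⟩
    simpa using hd

theorem coprime_of_local {a b : ℤ} (h : ∀ p : ℕ, p.Prime → ∃ n : ℤ, ¬ (p : ℤ) ∣ a * n + b) :
    IsCoprime a b := by
  rw [Int.isCoprime_iff_gcd_eq_one]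
  by_contra hne
  obtain ⟨r, hr, hrd⟩ := Nat.exists_prime_and_dvd hne
  have h1 : (r : ℤ) ∣ (Int.gcd a b : ℤ) := Int.natCast_dvd_natCast.2 hrd
  obtain ⟨n, hn⟩ := h r hr
  exact hn (dvd_add (Dvd.dvd.mul_right (h1.trans (Int.gcd_dvd_left _ _)) _)
    (h1.trans (Int.gcd_dvd_right _ _)))

theorem no_chain_iso {W : ℕ} (A B : ℕ → ℤ) : ¬ Chn {((1 : ℤ), (0 : ℤ))} W (Iso C45) 44 A B := by
  classical
  intro h
  -- the exceptional sets
  have hR : ∀ i j : ℕ, ∃ R : Finset (ℤ × ℤ), i < j → j ≤ 44 →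
      (∀ r ∈ R, 1 ≤ r.1 ∧ r ≠ (1, 0) ∧ r ≠ (A j / A i, B j - (A j / A i) * B i)) ∧
      ¬ Often C45 (fun q => q.Prime ∧ (∃ p : ℕ, p.Prime ∧
        (B j - (A j / A i) * B i) + q * (A j / A i) = p) ∧
        ∀ r ∈ R, ¬ (r.2 + q * r.1).natAbs.Prime) := by
    intro i j
    by_cases hij : i < j ∧ j ≤ 44
    · have h1 := (h.div_eq hij.1 hij.2).2.1
      unfold Iso at h1
      push Not at h1
      obtain ⟨R, hR1, hR2⟩ := h1
      exact ⟨R, fun _ _ => ⟨hR1, hR2⟩⟩
    · exact ⟨∅, fun h1 h2 => absurd ⟨h1, h2⟩ hij⟩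
  choose R hR using hR
  have hloc := h.local1
  have hprim : ∀ i ≤ 44, IsCoprime (A i) (B i) := fun i hi =>
    coprime_of_local fun p hp => by
      obtain ⟨n, hn⟩ := hloc p hp
      exact ⟨n, hn i hi⟩
  -- the family
  set chain : Finset (ℤ × ℤ) := (range 45).image (fun i => (A i, B i)) with hchain
  set ex : Finset (ℤ × ℤ) := (range 45 ×ˢ range 45).biUnion (fun t =>
    if t.1 < t.2 then (R t.1 t.2).image (fun r => (r.1 * A t.1, r.1 * B t.1 + r.2)) else ∅) with hex
  set Fam : Finset (ℤ × ℤ) := chain ∪ ex.filter (fun g => 0 < g.1 ∧ IsCoprime g.1 g.2) with hFam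
  have hFamP : ∀ f ∈ Fam, 0 < f.1 ∧ IsCoprime f.1 f.2 := by
    intro f hf
    rw [hFam, mem_union] at hf
    rcases hf with hf | hf
    · rw [hchain, mem_image] at hf
      obtain ⟨i, hi, rfl⟩ := hf
      rw [mem_range] at hi
      exact ⟨h.pos i (by omega), hprim i (by omega)⟩
    · exact (mem_filter.1 hf).2
  have hinj : ∀ i ≤ 44, ∀ j ≤ 44, (A i, B i) = (A j, B j) → i = j := by
    intro i hi j hj he
    rw [Prod.mk.injEq] at he
    rcases Nat.lt_trichotomy i j with h1 | h1 | h1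
    · exact absurd he.1 (h.mono_lt h1 hj).ne
    · exact h1
    · exact absurd he.1 (h.mono_lt h1 hi).ne'
  set S : Finset {f // f ∈ Fam} := univ.filter (fun f => f.1 ∈ chain) with hS
  have hScard : 45 ≤ S.card := by
    have h1 : chain.card = 45 := by
      rw [hchain, card_image_of_injOn]
      · simp
      · intro i hi j hj he
        rw [mem_coe, mem_range] at hi hj
        exact hinj i (by omega) j (by omega) he
    have h2 : S.image (fun f => f.1) = chain := by
      ext f
      simp only [hS, mem_image, mem_filter, mem_univ, true_and]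
      constructor
      · rintro ⟨g, hg, rfl⟩; exact hg
      · intro hf
        exact ⟨⟨f, by rw [hFam]; exact mem_union_left _ hf⟩, hf, rfl⟩
    calc 45 = chain.card := h1.symm
      _ = (S.image (fun f => f.1)).card := by rw [h2]
      _ ≤ S.card := card_image_le
  obtain ⟨T, hTS, hT2, hTo⟩ := (Pool.Agent.Y876.FF.exact_forms Pool.Agent.Y876.FF.lh45
    (fun f : {f // f ∈ Fam} => f.1.1) (fun f => f.1.2) (fun f => (hFamP _ f.2).1)
    (by
      intro f g hfg he
      apply hfg
      obtain ⟨h1, h2⟩ := prim_eq (hFamP _ f.2).1 (hFamP _ g.2).1 (hFamP _ f.2).2 (hFamP _ g.2).2 he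
      exact Subtype.ext (Prod.ext h1 h2)) S hScard
    (by
      intro p hp
      apply exists_nat_of_int hp
      obtain ⟨n, hn⟩ := hloc p hp
      refine ⟨n, fun f hf => ?_⟩
      rw [hS, mem_filter, hchain, mem_image] at hf
      obtain ⟨_, i, hi, he⟩ := hf
      rw [mem_range] at hi
      rw [← he]
      exact hn i (by omega))).2
  -- the indices of `T`
  set T' : Finset ℕ := (range 45).filter (fun i => ∃ f ∈ T, f.1 = (A i, B i)) with hT'
  have hT'2 : 2 ≤ T'.card := by
    have h1 : T.image (fun f => f.1) ⊆ T'.image (fun i => (A i, B i)) := by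
      intro f hf
      rw [mem_image] at hf
      obtain ⟨g, hg, rfl⟩ := hf
      have h2 := hTS hg
      rw [hS, mem_filter, hchain, mem_image] at h2
      obtain ⟨_, i, hi, he⟩ := h2
      rw [mem_image]
      refine ⟨i, ?_, he⟩
      rw [hT', mem_filter]
      exact ⟨hi, g, hg, he.symm⟩
    have h2 : (T.image (fun f => f.1)).card = T.card :=
      card_image_of_injective _ Subtype.val_injective
    calc 2 ≤ T.card := hT2
      _ = (T.image (fun f => f.1)).card := h2.symm
      _ ≤ (T'.image (fun i => (A i, B i))).card := card_le_card h1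
      _ ≤ T'.card := card_image_le
  have hT'ne : T'.Nonempty := by rw [← card_pos]; omega
  obtain ⟨j, hj⟩ : ∃ j, j = T'.max' hT'ne := ⟨_, rfl⟩
  have hjT : j ∈ T' := by rw [hj]; exact T'.max'_mem _
  have hT''ne : (T'.erase j).Nonempty := by
    rw [← card_pos, card_erase_of_mem hjT]; omega
  obtain ⟨i, hi⟩ : ∃ i, i = (T'.erase j).max' hT''ne := ⟨_, rfl⟩
  have hiT'' : i ∈ T'.erase j := by rw [hi]; exact (T'.erase j).max'_mem _
  obtain ⟨hij', hiT⟩ := mem_erase.1 hiT''
  have hij : i < j := by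
    have h1 : i ≤ j := by rw [hj]; exact T'.le_max' i hiT
    omega
  have htop : ∀ k ∈ T', k ≤ i ∨ k = j := by
    intro k hk
    by_cases hkj : k = j
    · exact Or.inr hkj
    · left
      rw [hi]
      exact (T'.erase j).le_max' k (mem_erase.2 ⟨hkj, hk⟩)
  have hj44 : j ≤ 44 := by
    have := mem_range.1 (mem_filter.1 hjT).1
    omega
  have hi44 : i ≤ 44 := by omega
  obtain ⟨hD1, -, hD2⟩ := h.div_eq hij hj44
  obtain ⟨hR1, hR2⟩ := hR i j hij hj44
  apply hR2
  obtain ⟨fi, hfiT, hfi⟩ := (mem_filter.1 hiT).2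
  obtain ⟨fj, hfjT, hfj⟩ := (mem_filter.1 hjT).2
  -- the size of the exceptional values
  set n₀ : ℕ := (B i).natAbs + ∑ r ∈ R i j, ((r.1 * B i + r.2).natAbs + 2) with hn₀
  have hAi := h.pos i hi44
  refine Often.shift (A i) (B i) hAi n₀ (C := Pool.Agent.Y876.FF.CC 45 + 3) hTo ?_
  intro n hn htr
  have hnB : (B i).natAbs ≤ n := by omega
  have hqpos : 0 ≤ A i * n + B i := by
    have h1 : ((B i).natAbs : ℤ) ≤ n := by exact_mod_cast hnB
    have h2 : (n : ℤ) ≤ A i * n := by nlinarith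
    omega
  obtain ⟨q, hq⟩ := Int.eq_ofNat_of_zero_le hqpos
  have hqp : q.Prime := by
    have h1 := (htr fi).2 hfiT
    rw [hfi] at h1
    simp only at h1
    rw [hq] at h1
    simpa using h1
  have hpe : (B j - (A j / A i) * B i) + q * (A j / A i) = A j * n + B j := by
    have h1 : (q : ℤ) = A i * n + B i := hq.symm
    rw [h1]
    have h2 : A j * n = (A j / A i) * A i * n := by rw [← hD1]
    rw [h2]
    ring
  refine ⟨q, hq.symm, hqp, ?_, ?_⟩
  · have h1 := (htr fj).2 hfjT
    rw [hfj] at h1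
    simp only at h1
    have h2 : 0 ≤ A j * n + B j := by
      rw [← hpe]
      obtain ⟨u, D, hu, hD, h3, h4, _⟩ := h.rel i j hij hj44
      have h5 : A j / A i = D := by rw [h3]; exact Int.mul_ediv_cancel _ hAi.ne'
      rw [h5, h4]
      have h6 : 0 ≤ (q : ℤ) * D := by positivity
      linarith
    obtain ⟨p, hp⟩ := Int.eq_ofNat_of_zero_le h2
    refine ⟨p, ?_, by rw [hpe, hp]⟩
    rw [hp] at h1
    simpa using h1
  · intro r hr hpr
    obtain ⟨hr1, hr2, hr3⟩ := hR1 r hr
    have hval : r.2 + q * r.1 = (r.1 * A i) * n + (r.1 * B i + r.2) := by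
      have h1 : (q : ℤ) = A i * n + B i := hq.symm
      rw [h1]
      ring
    rw [hval] at hpr
    have hg0 : 0 < r.1 * A i := by positivity
    have hgex : (r.1 * A i, r.1 * B i + r.2) ∈ ex := by
      rw [hex, mem_biUnion]
      refine ⟨(i, j), by simp only [mem_product, mem_range]; omega, ?_⟩
      simp only [hij, if_true, mem_image]
      exact ⟨r, hr, rfl⟩
    by_cases hcop : IsCoprime (r.1 * A i) (r.1 * B i + r.2)
    · have hgF : (r.1 * A i, r.1 * B i + r.2) ∈ Fam := by
        rw [hFam]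
        exact mem_union_right _ (mem_filter.2 ⟨hgex, hg0, hcop⟩)
      have hgT := (htr ⟨_, hgF⟩).1 hpr
      have hgS := hTS hgT
      rw [hS, mem_filter, hchain, mem_image] at hgS
      obtain ⟨_, k, hk, he⟩ := hgS
      simp only [Prod.mk.injEq] at he
      rw [mem_range] at hk
      have hkT : k ∈ T' := by
        rw [hT', mem_filter]
        refine ⟨mem_range.2 hk, _, hgT, ?_⟩
        simp only [Prod.mk.injEq]
        exact ⟨he.1.symm, he.2.symm⟩
      rcases htop k hkT with h1 | h1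
      · have h2 : k = i := by
          by_contra hne
          have h3 : A k < A i := h.mono_lt (by omega) hi44
          rw [he.1] at h3
          nlinarith
        subst h2
        have h3 : r.1 = 1 := by
          have h4 : r.1 * A k = 1 * A k := by rw [← he.1, one_mul]
          exact mul_right_cancel₀ hAi.ne' h4
        have h4 : r.2 = 0 := by
          have h5 := he.2
          rw [h3] at h5
          linarith
        exact hr2 (Prod.ext h3 h4)
      · subst h1
        have h3 : r.1 = A k / A i := by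
          rw [he.1]
          exact (Int.mul_ediv_cancel _ hAi.ne').symm
        have h4 : r.2 = B k - (A k / A i) * B i := by
          rw [← h3]
          linarith [he.2]
        exact hr3 (Prod.ext h3 h4)
    · -- an imprimitive form
      apply hcop
      rw [Int.isCoprime_iff_gcd_eq_one]
      by_contra hne
      obtain ⟨l, hl, hld⟩ := Nat.exists_prime_and_dvd hne
      have h1 : (l : ℤ) ∣ (Int.gcd (r.1 * A i) (r.1 * B i + r.2) : ℤ) := Int.natCast_dvd_natCast.2 hld
      have h2 : (l : ℤ) ∣ r.1 * A i := h1.trans (Int.gcd_dvd_left _ _)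
      have h3 : (l : ℤ) ∣ r.1 * B i + r.2 := h1.trans (Int.gcd_dvd_right _ _)
      have h4 : (l : ℤ) ∣ (r.1 * A i) * n + (r.1 * B i + r.2) := dvd_add (Dvd.dvd.mul_right h2 _) h3
      have h5 : l ∣ ((r.1 * A i) * n + (r.1 * B i + r.2)).natAbs := Int.natCast_dvd.1 h4
      have h6 : l = ((r.1 * A i) * n + (r.1 * B i + r.2)).natAbs :=
        (Nat.prime_dvd_prime_iff_eq hl hpr).1 h5
      have h7 : (l : ℤ) ≤ r.1 * A i := Int.le_of_dvd hg0 h2
      have h8 : (r.1 * B i + r.2).natAbs + 2 ≤ n := by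
        have h9 : (r.1 * B i + r.2).natAbs + 2 ≤ ∑ r ∈ R i j, ((r.1 * B i + r.2).natAbs + 2) :=
          Finset.single_le_sum (f := fun r : ℤ × ℤ => (r.1 * B i + r.2).natAbs + 2)
            (fun _ _ => Nat.zero_le _) hr
        omega
      have h9 : ((r.1 * B i + r.2).natAbs : ℤ) + 2 ≤ n := by exact_mod_cast h8
      have h10 : r.1 * A i + (r.1 * B i + r.2).natAbs < (r.1 * A i) * n := by
        nlinarith
      have h11 : (((r.1 * A i) * n + (r.1 * B i + r.2)).natAbs : ℤ) ≤ r.1 * A i := by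
        rw [← h6]; exact h7
      omega

end Pool.Agent.K1H86.PP
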