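import Mathlib
import Pool.Agent.K1H86.PP.Iso
import Pool.Agent.TH709.RGap.Dens

/-! Homothetic copies of all finite configurations inside the set of good pairs (helper86). -/

set_option autoImplicit false

namespace Pool.Agent.K1H86.PP

open Finset Filter
open Pool.Agent.TH709.RGap (Dense ipr)

/-- many primes `q` with `a + q d` prime -/
def GoodC (C : ℕ) (a d : ℤ) : Prop :=
  Often C (fun q => q.Prime ∧ ∃ p : ℕ, p.Prime ∧ a + q * d = p)

theorem Iso.good {C : ℕ} {a d : ℤ} (h : Iso C a d) : GoodC C a d := by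
  have h1 := h ∅ (by simp)
  exact Often.mono h1 fun q hq => ⟨hq.1, hq.2.1⟩

/-- the exact pairs have a positive proportion -/
theorem iso_proportion : ∃ c : ℝ, 0 < c ∧ ∃ Y₀ : ℕ, ∀ X Y : ℕ, Y₀ ≤ Y → Y ≤ X →
    c * X * Y ≤ (Set.ncard {ad : ℤ × ℤ | 1 ≤ ad.1 ∧ ad.1 ≤ X ∧ 1 ≤ ad.2 ∧ ad.2 ≤ Y ∧
      2 ∣ ad.1 ∧ Iso C45 ad.1 ad.2} : ℝ) := by
  obtain ⟨c, hc, Y₀, hY⟩ := proportion (Λ := {((1 : ℤ), (0 : ℤ))}) (W := Nat.factorial 45) (N := 44)
    (n := 45) (Q := Iso C45) (Nat.factorial_pos _) (by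
      intro l hl
      rw [mem_singleton] at hl
      rw [hl]
      exact one_dvd _) (by norm_num) (by simp) (by norm_num)
    (fun p hp h => (hp.dvd_factorial).2 h) (fun A B => no_chain_iso A B)
  refine ⟨c, hc, Y₀, fun X Y h1 h2 => (hY X Y h1 h2).trans ?_⟩
  refine Nat.cast_le.2 (Set.ncard_le_ncard ?_ ?_)
  · rintro ad ⟨h3, h4, h5, h6, h7, h8, h9⟩
    have h2' : (2 : ℤ) ∣ ((Nat.factorial 45 : ℕ) : ℤ) := by
      have : 2 ∣ Nat.factorial 45 := (Nat.prime_two.dvd_factorial).2 (by norm_num)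
      exact_mod_cast this
    exact ⟨h3, h4, h5, h6, h2'.trans h7, h9⟩
  · apply ((Set.finite_Icc (1 : ℤ) X).prod (Set.finite_Icc (1 : ℤ) Y)).subset
    rintro ad ⟨h1, h2, h3, h4, _⟩
    exact ⟨⟨h1, h2⟩, h3, h4⟩

theorem gcd_of_good {C : ℕ} {a d : ℤ} (hd : 0 < d) (h : GoodC C a d) : Int.gcd a d = 1 := by
  have hinf := h.infinite
  by_contra hne
  obtain ⟨r, hr, hrd⟩ := Nat.exists_prime_and_dvd hne
  apply hinf
  have hsub : {q : ℕ | q.Prime ∧ ∃ p : ℕ, p.Prime ∧ a + q * d = p} ⊆ {q : ℕ | (a + q * d : ℤ) = r} := by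
    rintro q ⟨_, p, hp, hpe⟩
    have h1 : (r : ℤ) ∣ (Int.gcd a d : ℤ) := Int.natCast_dvd_natCast.2 hrd
    have h2 : (r : ℤ) ∣ a + q * d :=
      dvd_add (h1.trans (Int.gcd_dvd_left _ _)) (Dvd.dvd.mul_left (h1.trans (Int.gcd_dvd_right _ _)) _)
    rw [hpe] at h2
    have h3 : r = p := (Nat.prime_dvd_prime_iff_eq hr hp).1 (Int.natCast_dvd_natCast.1 h2)
    show (a + q * d : ℤ) = r
    rw [hpe, h3]
  refine Set.Finite.subset (Set.Subsingleton.finite ?_) hsub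
  intro x hx y hy
  have hx' : (a + x * d : ℤ) = r := hx
  have hy' : (a + y * d : ℤ) = r := hy
  have h1 : (x : ℤ) * d = y * d := by linarith
  exact_mod_cast mul_right_cancel₀ hd.ne' h1

/-- **Homothetic copies of finite configurations.** -/
theorem patterns (k : ℕ) : ∃ (r : ℕ) (η : ℝ), 0 < η ∧ ∀ (F : Fin (k + 1) → ℤ × ℤ) (h : Fin r → ℤ),
    ∃ I : Finset (Fin r), I.Nonempty ∧ ∀ L : ℕ, ∃ N : ℕ, L ≤ N ∧ ∃ x y : ℤ,
      η * (N : ℝ) ^ 2 ≤ (Set.ncard {ad : ℤ × ℤ | (x ≤ ad.1 ∧ ad.1 < x + N) ∧ (y ≤ ad.2 ∧ ad.2 < y + N) ∧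
        ∀ t, 1 ≤ ad.1 + (∑ i ∈ I, h i) * (F t).1 ∧ 1 ≤ ad.2 + (∑ i ∈ I, h i) * (F t).2 ∧
          2 ∣ ad.1 + (∑ i ∈ I, h i) * (F t).1 ∧
          GoodC C45 (ad.1 + (∑ i ∈ I, h i) * (F t).1) (ad.2 + (∑ i ∈ I, h i) * (F t).2)} : ℝ) := by
  obtain ⟨c, hc, Y₀, hY⟩ := iso_proportion
  obtain ⟨r, η, hη, hr⟩ := ipr k c hc
  refine ⟨r, η, hη, fun F h => ?_⟩
  set A : Set (Fin 2 → ℤ) := {v | 1 ≤ v 0 ∧ 1 ≤ v 1 ∧ 2 ∣ v 0 ∧ GoodC C45 (v 0) (v 1)} with hA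
  have hdense : Dense A c := by
    intro L
    refine ⟨max L Y₀, le_max_left _ _, fun _ => 1, ?_⟩
    have h1 := hY (max L Y₀) (max L Y₀) (le_max_right _ _) le_rfl
    rw [pow_two, ← mul_assoc]
    refine h1.trans (Nat.cast_le.2 ?_)
    refine Set.ncard_le_ncard_of_injOn (fun ad : ℤ × ℤ => ![ad.1, ad.2]) ?_ ?_ ?_
    · rintro ad ⟨h3, h4, h5, h6, h7, h8⟩
      refine ⟨⟨by simpa using h3, by simpa using h5, by simpa using h7, by simpa using h8.good⟩, ?_⟩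
      intro i
      fin_cases i
      · simp only [Fin.zero_eta, Matrix.cons_val_zero]
        omega
      · simp only [Fin.mk_one, Matrix.cons_val_one, Matrix.cons_val_fin_one]
        omega
    · intro u _ v _ he
      simp only at he
      have h3 := congrFun he 0
      have h4 := congrFun he 1
      simp only [Matrix.cons_val_zero, Matrix.cons_val_one, Matrix.cons_val_fin_one] at h3 h4
      exact Prod.ext h3 h4
    · apply (Set.Finite.pi' (t := fun _ : Fin 2 => Set.Ico (1 : ℤ) (1 + (max L Y₀ : ℕ)))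
        (fun _ => Set.finite_Ico _ _)).subset
      rintro v ⟨_, hv⟩ i
      exact hv i
  obtain ⟨I, hI, hD⟩ := hr 2 A hdense (fun t => ![(F t).1, (F t).2]) h
  refine ⟨I, hI, fun L => ?_⟩
  obtain ⟨N, hN, x, hx⟩ := hD L
  refine ⟨N, hN, x 0, x 1, hx.trans (Nat.cast_le.2 ?_)⟩
  refine Set.ncard_le_ncard_of_injOn (fun v : Fin 2 → ℤ => (v 0, v 1)) ?_ ?_ ?_
  · rintro v ⟨h3, h4⟩
    refine ⟨h4 0, h4 1, fun t => ?_⟩
    have h5 := h3 t
    rw [hA] at h5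
    simpa [Matrix.vecHead, Matrix.vecTail] using h5
  · intro u _ v _ he
    simp only [Prod.mk.injEq] at he
    funext i
    fin_cases i
    · exact he.1
    · exact he.2
  · apply ((Set.finite_Ico (x 0) (x 0 + N)).prod (Set.finite_Ico (x 1) (x 1 + N))).subset
    rintro ad ⟨h1, h2, _⟩
    exact ⟨h1, h2⟩

end Pool.Agent.K1H86.PP
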