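import Mathlib
import Pool.Agent.H672R3.HomPat

/-! Ramsey's theorem for several properties (copied from `Pool.Agent.H672R3.SimRec` of the starting files,
to keep the imports short). -/

set_option autoImplicit false

namespace Pool.Agent.K1H86.PP

open Finset

/-- Ramsey's theorem for `l` properties which every `K0`-set has for some of its `k`-subsets -/
theorem fin_sys (k K0 l : ℕ) : ∃ C : ℕ, ∀ (X : Type) (S : Finset X) (G : Fin l → Finset X → Prop),
    (∀ s, ∀ T ⊆ S, T.card = K0 → ∃ U ⊆ T, U.card = k ∧ G s U) → C ≤ S.card →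
    ∃ T ⊆ S, T.card = k ∧ ∀ s, G s T := by
  classical
  induction l with
  | zero =>
    refine ⟨k, fun X S G _ hS => ?_⟩
    obtain ⟨T, hT, hTk⟩ := Finset.exists_subset_card_eq hS
    exact ⟨T, hT, hTk, fun i => i.elim0⟩
  | succ l ih =>
    obtain ⟨C, hC⟩ := ih
    obtain ⟨N, hN⟩ := Pool.Agent.H672R3.HomPat.ram_set k (max C K0)
    refine ⟨N, fun X S G hG hS => ?_⟩
    obtain ⟨T, hTS, hTc, hP | hP⟩ := hN X S (G 0) hS
    · obtain ⟨U, hUT, hUk, hU⟩ := hC X T (fun s => G s.succ)
        (fun s T' hT' hT'c => hG s.succ T' (hT'.trans hTS) hT'c) (by rw [hTc]; exact le_max_left _ _)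
      refine ⟨U, hUT.trans hTS, hUk, fun s => ?_⟩
      refine Fin.cases ?_ (fun s => ?_) s
      · exact hP U hUT hUk
      · exact hU s
    · exfalso
      obtain ⟨T', hT', hT'c⟩ := Finset.exists_subset_card_eq
        (show K0 ≤ T.card by rw [hTc]; exact le_max_right _ _)
      obtain ⟨U, hU, hUk, hGU⟩ := hG 0 T' (hT'.trans hTS) hT'c
      exact hP U (hU.trans hT') hUk hGU

end Pool.Agent.K1H86.PP
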