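import Mathlib
import Pool.Agent.K1H86.PP.Count
import Pool.Agent.K1H86.PP.Often
import Pool.Agent.K1H86.PP.Iso
import Pool.Agent.K1H86.PP.Ram

/-! Many substitutions and residue classes at the same time (helper86). -/

set_option autoImplicit false

namespace Pool.Agent.K1H86.PP

open Finset Filter

/-- many primes `q ≡ r (mod M)` with `a + q d` prime -/
def GoodR (C M r : ℕ) (a d : ℤ) : Prop :=
  Often C (fun q => q.Prime ∧ q ≡ r [MOD M] ∧ ∃ p : ℕ, p.Prime ∧ a + q * d = p)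

/-- one substitution and one residue class: among 45 maps of a chain two have a good quotient -/
theorem one_pair {Λ : Finset (ℤ × ℤ)} {W m : ℕ} {Q : ℤ → ℤ → Prop} {A B : ℕ → ℤ}
    (hW : ∀ l ∈ Λ, l.1 ∣ (W : ℤ)) (h : Chn Λ W Q m A B) {l : ℤ × ℤ} (hl : l ∈ Λ) {M r : ℕ} (hM : 0 < M)
    (hMW : M ∣ W) (hr : r.Coprime M) (T : Finset ℕ) (hT : ∀ t ∈ T, t ≤ m) (hTc : T.card = 45) :
    ∃ i ∈ T, ∃ j ∈ T, i < j ∧ GoodR C45 M r
      (l.1 * (B j - (A j / A i) * B i) + l.2 * (1 - A j / A i)) (A j / A i) := by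
  classical
  have hMr : (0 : ℤ) < M := by exact_mod_cast hM
  set b : ℕ → ℤ := fun i => A i * r + (l.1 * B i + l.2 * (1 - A i)) with hb
  have hpos : ∀ t ∈ T, 0 < (M : ℤ) * A t := fun t ht => mul_pos hMr (h.pos t (hT t ht))
  -- the local condition
  have hloc : ∀ p : ℕ, p.Prime → ∃ n : ℤ, ∀ i ≤ m, ¬ (p : ℤ) ∣ (M * A i) * n + b i := by
    intro p hp
    have hpI : Prime (p : ℤ) := Nat.prime_iff_prime_int.1 hp
    by_cases hpW : p ∣ W
    · have hpW' : (p : ℤ) ∣ (W : ℤ) := Int.natCast_dvd_natCast.2 hpW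
      -- all forms are `M n + r` modulo `p`
      have key : ∀ (n : ℤ) (i : ℕ), i ≤ m → (p : ℤ) ∣ ((M * A i) * n + b i) - (M * n + r) := by
        intro n i hi
        have h1 := hpW'.trans (h.amod i hi)
        have h2 := hpW'.trans (h.bmod i hi)
        have h3 : ((M * A i) * n + b i) - (M * n + r) =
            (A i - 1) * (M * n + r - l.2) + B i * l.1 := by
          simp only [hb]; ring
        rw [h3]
        exact dvd_add (Dvd.dvd.mul_right h1 _) (Dvd.dvd.mul_right h2 _)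
      have hex : ∃ n : ℤ, ¬ (p : ℤ) ∣ M * n + r := by
        by_cases hpM : (p : ℤ) ∣ (M : ℤ)
        · refine ⟨0, fun h1 => ?_⟩
          rw [mul_zero, zero_add] at h1
          have h2 : p ∣ Nat.gcd r M :=
            Nat.dvd_gcd (Int.natCast_dvd_natCast.1 h1) (Int.natCast_dvd_natCast.1 hpM)
          rw [hr] at h2
          exact hp.one_lt.ne' (Nat.dvd_one.1 h2)
        · obtain ⟨w, hw⟩ := avoid (ι := Unit) hp (by simpa using hp.one_lt) (fun _ => (M : ℤ))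
            (fun _ => (r : ℤ)) (fun _ => hpM)
          exact ⟨w, hw ()⟩
      obtain ⟨n, hn⟩ := hex
      refine ⟨n, fun i hi hd => hn ?_⟩
      have h1 := dvd_sub hd (key n i hi)
      rwa [sub_sub_cancel] at h1
    · have hpW' : ¬ (p : ℤ) ∣ (W : ℤ) := fun h => hpW (Int.natCast_dvd_natCast.1 h)
      have hpM : ¬ (p : ℤ) ∣ (M : ℤ) := fun h => hpW ((Int.natCast_dvd_natCast.1 h).trans hMW)
      obtain ⟨n, hn⟩ := h.loc p hp hpW l hl
      -- solve `M n' + r ≡ l.1 n + l.2`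
      have hcop : IsCoprime (M : ℤ) (p : ℤ) := by
        rw [isCoprime_comm]
        exact (Nat.isCoprime_iff_coprime.2 ((hp.coprime_iff_not_dvd).2
          (fun h => hpM (Int.natCast_dvd_natCast.2 h))))
      obtain ⟨u, v, huv⟩ := hcop
      refine ⟨u * (l.1 * n + l.2 - r), fun i hi hd => hn i hi ?_⟩
      have h1 : l.1 * (A i * n + B i) + l.2 = ((M * A i) * (u * (l.1 * n + l.2 - r)) + b i) +
          (p : ℤ) * (v * A i * (l.1 * n + l.2 - r)) := by
        have h2 : (M : ℤ) * u = 1 - v * p := by linarith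
        have h3 : (M * A i) * (u * (l.1 * n + l.2 - r)) = (M * u) * (A i * (l.1 * n + l.2 - r)) := by ring
        rw [h3, h2]
        simp only [hb]
        ring
      rw [h1]
      exact dvd_add hd (Dvd.intro _ rfl)
  have hprim : ∀ i ≤ m, IsCoprime ((M : ℤ) * A i) (b i) := fun i hi =>
    coprime_of_local fun p hp => by
      obtain ⟨n, hn⟩ := hloc p hp
      exact ⟨n, hn i hi⟩
  obtain ⟨S, hS1, hS2, hSo⟩ := (Pool.Agent.Y876.FF.exact_forms Pool.Agent.Y876.FF.lh45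
    (fun t : {t // t ∈ T} => (M : ℤ) * A t) (fun t => b t) (fun t => hpos _ t.2)
    (by
      intro i j hij he
      apply hij
      obtain ⟨h1, _⟩ := prim_eq (hpos _ i.2) (hpos _ j.2) (hprim _ (hT _ i.2)) (hprim _ (hT _ j.2)) he
      have h2 : A i = A j := mul_left_cancel₀ hMr.ne' h1
      rcases Nat.lt_trichotomy (i : ℕ) j with h3 | h3 | h3
      · exact absurd h2 (h.mono_lt h3 (hT _ j.2)).ne
      · exact Subtype.ext h3
      · exact absurd h2 (h.mono_lt h3 (hT _ i.2)).ne') univ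
    (by rw [card_univ, Fintype.card_coe, hTc])
    (by
      intro p hp
      apply exists_nat_of_int hp
      obtain ⟨n, hn⟩ := hloc p hp
      exact ⟨n, fun t _ => hn t (hT _ t.2)⟩)).2
  obtain ⟨x, hx, y, hy, hxy⟩ := one_lt_card.1 (by omega : 1 < S.card)
  have hex : ∃ i ∈ S, ∃ j ∈ S, (i : ℕ) < (j : ℕ) := by
    have hne : (x : ℕ) ≠ (y : ℕ) := fun h => hxy (Subtype.ext h)
    rcases Nat.lt_or_gt_of_ne hne with h1 | h1
    · exact ⟨x, hx, y, hy, h1⟩
    · exact ⟨y, hy, x, hx, h1⟩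
  obtain ⟨i, hiS, j, hjS, hij⟩ := hex
  refine ⟨i, i.2, j, j.2, hij, ?_⟩
  have him := hT _ i.2
  have hjm := hT _ j.2
  have hAi := h.pos i him
  obtain ⟨hD1, -, hD2⟩ := h.div_eq hij hjm
  refine Often.shift ((M : ℤ) * A i) (b i) (hpos _ i.2) ((b i).natAbs + (b j).natAbs)
    (C := Pool.Agent.Y876.FF.CC 45 + 3) hSo ?_
  intro n hn htr
  have hnonneg : ∀ k : ℕ, k ≤ m → (b k).natAbs ≤ n → 0 ≤ (M * A k) * (n : ℤ) + b k := by
    intro k hk hkn
    have h1 : ((b k).natAbs : ℤ) ≤ n := by exact_mod_cast hkn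
    have h2 : 0 < (M : ℤ) * A k := mul_pos hMr (h.pos k hk)
    have h3 : (n : ℤ) ≤ (M * A k) * n := by nlinarith
    omega
  obtain ⟨q, hq⟩ := Int.eq_ofNat_of_zero_le (hnonneg i him (by omega))
  obtain ⟨p, hp⟩ := Int.eq_ofNat_of_zero_le (hnonneg j hjm (by omega))
  refine ⟨q, hq.symm, ?_, ?_, p, ?_, ?_⟩
  · have h1 := (htr i).2 hiS
    rw [hq] at h1
    simpa using h1
  · have h1 : (M : ℤ) ∣ (r : ℤ) - q := by
      have hMW' : (M : ℤ) ∣ (W : ℤ) := Int.natCast_dvd_natCast.2 hMW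
      have h2 := hMW'.trans (h.amod i him)
      have h3 := hMW'.trans (h.bmod i him)
      have h4 : (r : ℤ) - q = -(M * (A i * n)) - (A i - 1) * (r - l.2) - B i * l.1 := by
        have h5 : (q : ℤ) = (M * A i) * (n : ℤ) + b i := hq.symm
        rw [h5]
        simp only [hb]
        ring
      rw [h4]
      exact dvd_sub (dvd_sub ((Dvd.intro _ rfl).neg_right) (Dvd.dvd.mul_right h2 _))
        (Dvd.dvd.mul_right h3 _)
    exact (Nat.modEq_iff_dvd).2 h1
  · have h1 := (htr j).2 hjS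
    rw [hp] at h1
    simpa using h1
  · have h1 : (p : ℤ) = (M * A j) * (n : ℤ) + b j := hp.symm
    have h2 : (q : ℤ) = (M * A i) * (n : ℤ) + b i := hq.symm
    rw [h1, h2]
    set D := A j / A i with hD
    simp only [hb]
    rw [hD1]
    ring

/-- **Simultaneous substitutions and residue classes.** -/
theorem simultaneous (Λ : Finset (ℤ × ℤ)) (hΛ : ∀ l ∈ Λ, l.1 ≠ 0) (M : ℕ) (hM : 0 < M) :
    ∃ c : ℝ, 0 < c ∧ ∃ Y₀ : ℕ, ∀ X Y : ℕ, Y₀ ≤ Y → Y ≤ X →
      c * X * Y ≤ (Set.ncard {ad : ℤ × ℤ | 1 ≤ ad.1 ∧ ad.1 ≤ X ∧ 1 ≤ ad.2 ∧ ad.2 ≤ Y ∧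
        (M : ℤ) ∣ ad.1 ∧ (M : ℤ) ∣ ad.2 - 1 ∧ 2 ∣ ad.1 ∧ 2 ∣ ad.2 - 1 ∧
        ∀ l ∈ Λ, ∀ r : ℕ, r.Coprime M →
          GoodR C45 M r (l.1 * ad.1 + l.2 * (1 - ad.2)) ad.2} : ℝ) := by
  classical
  set L : Finset ((ℤ × ℤ) × ℕ) := Λ ×ˢ (range M) with hL
  obtain ⟨N, hN⟩ := fin_sys 2 45 L.card
  set n : ℕ := 32 * Λ.card + N + 2 with hn
  set W : ℕ := n.factorial * M * ∏ l ∈ Λ, l.1.natAbs with hW
  have hprod : 0 < ∏ l ∈ Λ, l.1.natAbs := Finset.prod_pos fun l hl => Int.natAbs_pos.2 (hΛ l hl)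
  have hWpos : 0 < W := Nat.mul_pos (Nat.mul_pos (Nat.factorial_pos _) hM) hprod
  have hk : ∀ l ∈ Λ, l.1 ∣ (W : ℤ) := by
    intro l hl
    rw [← Int.natAbs_dvd_natAbs, Int.natAbs_natCast, hW]
    exact Dvd.dvd.mul_left (Finset.dvd_prod_of_mem (fun l : ℤ × ℤ => l.1.natAbs) hl) _
  have hnW : ∀ p : ℕ, p.Prime → p ≤ n → p ∣ W := fun p hp hpn =>
    Dvd.dvd.mul_right (Dvd.dvd.mul_right ((hp.dvd_factorial).2 hpn) _) _
  have hMW : M ∣ W := Dvd.dvd.mul_right (Dvd.intro_left _ rfl) _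
  have h2W : 2 ∣ W := hnW 2 Nat.prime_two (by omega)
  have hno : ∀ A B : ℕ → ℤ, ¬ Chn Λ W (fun a d => ∀ l ∈ Λ, ∀ r : ℕ, r < M → r.Coprime M →
      GoodR C45 M r (l.1 * a + l.2 * (1 - d)) d) N A B := by
    intro A B h
    set e : Fin L.card ≃ L := L.equivFin.symm with he
    obtain ⟨T, hT1, hT2, hT3⟩ := hN ℕ (range (N + 1)) (fun s U => ∃ i j : ℕ, i < j ∧ j ≤ N ∧ U = {i, j} ∧
        ((e s).1.2.Coprime M → GoodR C45 M (e s).1.2
          ((e s).1.1.1 * (B j - (A j / A i) * B i) + (e s).1.1.2 * (1 - A j / A i)) (A j / A i)))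
      (by
        intro s T hT hTc
        have hs : (e s).1.1 ∈ Λ := (mem_product.1 (e s).2).1
        by_cases hr : (e s).1.2.Coprime M
        · obtain ⟨i, hi, j, hj, hij, hG⟩ := one_pair hk h hs hM hMW hr T
            (fun t ht => by have := mem_range.1 (hT ht); omega) hTc
          have hjN : j ≤ N := by have := mem_range.1 (hT hj); omega
          refine ⟨{i, j}, ?_, card_pair hij.ne, i, j, hij, hjN, rfl, fun _ => hG⟩
          intro x hx
          rw [mem_insert, mem_singleton] at hx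
          rcases hx with rfl | rfl
          · exact hi
          · exact hj
        · obtain ⟨x, hx, y, hy, hxy⟩ := one_lt_card.1 (by omega : 1 < T.card)
          have hex : ∃ i ∈ T, ∃ j ∈ T, i < j := by
            rcases Nat.lt_or_gt_of_ne hxy with h1 | h1
            · exact ⟨x, hx, y, hy, h1⟩
            · exact ⟨y, hy, x, hx, h1⟩
          obtain ⟨i, hi, j, hj, hij⟩ := hex
          have hjN : j ≤ N := by have := mem_range.1 (hT hj); omega
          refine ⟨{i, j}, ?_, card_pair hij.ne, i, j, hij, hjN, rfl, fun h1 => absurd h1 hr⟩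
          intro x hx
          rw [mem_insert, mem_singleton] at hx
          rcases hx with rfl | rfl
          · exact hi
          · exact hj) (by simp)
    -- the pair
    obtain ⟨x, y, hxy, hTxy⟩ := card_eq_two.1 hT2
    obtain ⟨i, j, hij, hTij⟩ : ∃ i j : ℕ, i < j ∧ T = {i, j} := by
      rcases Nat.lt_or_gt_of_ne hxy with h1 | h1
      · exact ⟨x, y, h1, hTxy⟩
      · exact ⟨y, x, h1, by rw [hTxy, pair_comm]⟩
    have hjN : j ≤ N := by
      have h1 : j ∈ T := by rw [hTij]; simp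
      have := mem_range.1 (hT1 h1)
      omega
    have hu := (h.div_eq hij hjN).2.1
    apply hu
    intro l hl r hr hrM
    have hlr : (l, r) ∈ L := by rw [hL, mem_product, mem_range]; exact ⟨hl, hr⟩
    obtain ⟨i', j', hij', _, hTij', hG⟩ := hT3 (e.symm ⟨(l, r), hlr⟩)
    rw [Equiv.apply_symm_apply] at hG
    have heq : i' = i ∧ j' = j := by
      have h1 : ({i', j'} : Finset ℕ) = {i, j} := hTij'.symm.trans hTij
      have h2 : i' ∈ ({i, j} : Finset ℕ) := by rw [← h1]; simp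
      have h3 : j' ∈ ({i, j} : Finset ℕ) := by rw [← h1]; simp
      rw [mem_insert, mem_singleton] at h2 h3
      omega
    rw [heq.1, heq.2] at hG
    exact hG hrM
  obtain ⟨c, hc, Y₀, hY⟩ := proportion hWpos hk (n := n) (by omega) (by omega) (by omega) hnW hno
  refine ⟨c, hc, Y₀, fun X Y h1 h2 => (hY X Y h1 h2).trans ?_⟩
  refine Nat.cast_le.2 (Set.ncard_le_ncard ?_ ?_)
  · rintro ad ⟨h3, h4, h5, h6, h7, h8, h9⟩
    have hM' : (M : ℤ) ∣ (W : ℤ) := Int.natCast_dvd_natCast.2 hMW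
    have h2' : (2 : ℤ) ∣ (W : ℤ) := by exact_mod_cast h2W
    refine ⟨h3, h4, h5, h6, hM'.trans h7, hM'.trans h8, h2'.trans h7, h2'.trans h8,
      fun l hl r hr => ?_⟩
    have h10 := h9 l hl (r % M) (Nat.mod_lt _ hM) (by
      rw [Nat.Coprime, ← Nat.gcd_rec, Nat.gcd_comm]
      exact hr)
    unfold GoodR at h10 ⊢
    exact h10.mono fun q hq => ⟨hq.1, hq.2.1.trans (Nat.mod_modEq r M), hq.2.2⟩
  · apply ((Set.finite_Icc (1 : ℤ) X).prod (Set.finite_Icc (1 : ℤ) Y)).subset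
    rintro ad ⟨h1, h2, h3, h4, _⟩
    exact ⟨⟨h1, h2⟩, h3, h4⟩

end Pool.Agent.K1H86.PP
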