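import Mathlib
import Pool.Agent.K1H86.PP.Often
import Pool.Agent.K1H86.PP.Chain
import Pool.Agent.Y876.HS.Fin
import Pool.Agent.H672R3.HomPat

/-! Every infinite sequence of linear forms has an infinite subsequence all of whose finite parts have all
patterns of prime values (helper86). -/

set_option autoImplicit false

namespace Pool.Agent.K1H86.PP

open Finset Filter

/-- all patterns of prime values of the forms `f t`, `t ∈ E`, occur often, with exactness for every finite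
set of forms which do not belong to the sequence -/
def Pat (C : ℕ) (f : ℕ → ℤ × ℤ) (E : Finset ℕ) : Prop :=
  ∀ R : Finset (ℤ × ℤ), (∀ r ∈ R, 0 < r.1 ∧ IsCoprime r.1 r.2 ∧ ∀ t, r ≠ f t) → ∀ J ⊆ E,
    Often C (fun n => (∀ t ∈ E, (((f t).1 * (n : ℤ) + (f t).2).natAbs.Prime ↔ t ∈ J)) ∧
      ∀ r ∈ R, ¬ (r.1 * (n : ℤ) + r.2).natAbs.Prime)

/-- a sequence of distinct primitive forms -/
structure Seq (f : ℕ → ℤ × ℤ) : Prop where
  pos : ∀ t, 0 < (f t).1
  prim : ∀ t, IsCoprime (f t).1 (f t).2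
  inj : Function.Injective f

theorem many (m : ℕ) (hm : 1 ≤ m) : ∃ C K : ℕ, ∀ f : ℕ → ℤ × ℤ, Seq f → ∀ F : Finset ℕ, K ≤ F.card →
    (∀ p : ℕ, p.Prime → ∃ n : ℕ, ∀ t ∈ F, ¬ (p : ℤ) ∣ (f t).1 * n + (f t).2) →
    ∃ E ⊆ F, E.card = m ∧ Pat C f E := by
  classical
  obtain ⟨C, hC⟩ := Pool.Agent.Y876.HS.hereditary.{0} m hm
  refine ⟨C, ⌈Real.exp (4 * (m : ℝ) + 2 * Real.log m + 13)⌉₊ + m + 1, fun f hf F hF hloc => ?_⟩
  by_contra hcon
  push Not at hcon
  have hR : ∀ E : Finset ℕ, ∃ R : Finset (ℤ × ℤ), E ⊆ F → E.card = m →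
      (∀ r ∈ R, 0 < r.1 ∧ IsCoprime r.1 r.2 ∧ ∀ t, r ≠ f t) ∧ ∃ J ⊆ E,
        ¬ Often C (fun n => (∀ t ∈ E, (((f t).1 * (n : ℤ) + (f t).2).natAbs.Prime ↔ t ∈ J)) ∧
        ∀ r ∈ R, ¬ (r.1 * (n : ℤ) + r.2).natAbs.Prime) := by
    intro E
    by_cases hE : E ⊆ F ∧ E.card = m
    · have h1 := hcon E hE.1 hE.2
      unfold Pat at h1
      push Not at h1
      obtain ⟨R, hR1, J, hJ, hR2⟩ := h1
      exact ⟨R, fun _ _ => ⟨hR1, J, hJ, hR2⟩⟩
    · exact ⟨∅, fun h1 h2 => absurd ⟨h1, h2⟩ hE⟩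
  choose R hR using hR
  set Rall : Finset (ℤ × ℤ) := (F.powersetCard m).biUnion R with hRall
  have hRallP : ∀ r ∈ Rall, 0 < r.1 ∧ IsCoprime r.1 r.2 ∧ ∀ t, r ≠ f t := by
    intro r hr
    rw [hRall, mem_biUnion] at hr
    obtain ⟨E, hE, hrE⟩ := hr
    rw [mem_powersetCard] at hE
    exact (hR E hE.1 hE.2).1 r hrE
  set Fam : Finset (ℤ × ℤ) := F.image f ∪ Rall with hFam
  have hFamP : ∀ g ∈ Fam, 0 < g.1 ∧ IsCoprime g.1 g.2 := by
    intro g hg
    rw [hFam, mem_union] at hg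
    rcases hg with hg | hg
    · obtain ⟨t, _, rfl⟩ := mem_image.1 hg
      exact ⟨hf.pos t, hf.prim t⟩
    · exact ⟨(hRallP g hg).1, (hRallP g hg).2.1⟩
  set S : Finset {g // g ∈ Fam} := univ.filter (fun g => g.1 ∈ F.image f) with hS
  have hScard : S.card = F.card := by
    have h1 : S.image (fun g => g.1) = F.image f := by
      ext g
      simp only [hS, mem_image, mem_filter, mem_univ, true_and]
      constructor
      · rintro ⟨g, hg, rfl⟩; exact hg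
      · intro hg
        exact ⟨⟨g, by rw [hFam]; exact mem_union_left _ (mem_image.2 hg)⟩, hg, rfl⟩
    rw [← card_image_of_injective S Subtype.val_injective, h1, card_image_of_injective F hf.inj]
  have hlog : 4 * (m : ℝ) + 2 * Real.log m + 13 ≤ Real.log S.card := by
    rw [hScard]
    have h1 : Real.exp (4 * (m : ℝ) + 2 * Real.log m + 13) ≤ F.card := by
      refine (Nat.le_ceil _).trans ?_
      exact_mod_cast (by omega : ⌈Real.exp (4 * (m : ℝ) + 2 * Real.log m + 13)⌉₊ ≤ F.card)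
    rw [Real.le_log_iff_exp_le (lt_of_lt_of_le (Real.exp_pos _) h1)]
    exact h1
  obtain ⟨-, FF, hFF1, hFF2, hFF3⟩ := hC (fun g : {g // g ∈ Fam} => g.1.1) (fun g => g.1.2)
    (fun g => (hFamP _ g.2).1)
    (by
      intro g g' hgg he
      apply hgg
      obtain ⟨h1, h2⟩ := prim_eq (hFamP _ g.2).1 (hFamP _ g'.2).1 (hFamP _ g.2).2 (hFamP _ g'.2).2 he
      exact Subtype.ext (Prod.ext h1 h2)) S
    (by
      intro p hp
      obtain ⟨n, hn⟩ := hloc p hp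
      refine ⟨n, fun g hg => ?_⟩
      rw [hS, mem_filter, mem_image] at hg
      obtain ⟨_, t, ht, he⟩ := hg
      rw [← he]
      exact hn t ht) hlog
  have hne : FF.Nonempty := by
    rw [nonempty_iff_ne_empty]
    intro h0
    rw [h0, card_empty, Nat.cast_zero, mul_zero] at hFF2
    have h1 : 0 < S.card.choose m := Nat.choose_pos (by omega)
    have h2 : (0 : ℝ) < (S.card.choose m : ℝ) := by exact_mod_cast h1
    linarith
  obtain ⟨I, hI⟩ := hne
  obtain ⟨hIS, hIm⟩ := hFF1 I hI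
  set E : Finset ℕ := F.filter (fun t => ∃ g ∈ I, g.1 = f t) with hE
  have hEF : E ⊆ F := filter_subset _ _
  have hmemE : ∀ t, t ∈ E ↔ ∃ g ∈ I, g.1 = f t := by
    intro t
    rw [hE, mem_filter]
    constructor
    · exact fun h => h.2
    · rintro ⟨g, hg, he⟩
      refine ⟨?_, g, hg, he⟩
      have h1 := hIS hg
      rw [hS, mem_filter, mem_image] at h1
      obtain ⟨_, t', ht', he'⟩ := h1
      have h2 : t' = t := hf.inj (he'.trans he)
      rw [← h2]; exact ht'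
  have hEm : E.card = m := by
    have h1 : E.image f = I.image (fun g => g.1) := by
      ext g
      simp only [mem_image]
      constructor
      · rintro ⟨t, ht, rfl⟩
        obtain ⟨g, hg, he⟩ := (hmemE t).1 ht
        exact ⟨g, hg, he⟩
      · rintro ⟨g', hg', rfl⟩
        have h1 := hIS hg'
        rw [hS, mem_filter, mem_image] at h1
        obtain ⟨_, t', ht', he'⟩ := h1
        exact ⟨t', (hmemE t').2 ⟨g', hg', he'.symm⟩, he'⟩
    rw [← card_image_of_injective E hf.inj, h1, card_image_of_injective I Subtype.val_injective, hIm]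
  obtain ⟨hR1, J, hJE, hR2⟩ := hR E hEF hEm
  apply hR2
  have h1 : ∃ᶠ x : ℝ in atTop, x / Real.log x ^ C ≤ (Set.ncard {n : ℕ | (n : ℝ) ≤ x ∧
      ∀ g : {g // g ∈ Fam}, g ∈ I ∨ g ∉ S → ((g.1.1 * (n : ℤ) + g.1.2).natAbs.Prime ↔
        g ∈ I.filter (fun g => ∃ t ∈ J, f t = g.1))} : ℝ) :=
    hFF3.mono fun x hx => hx I hI _ (filter_subset _ _)
  refine Often.mono h1 fun n hn => ⟨fun t ht => ?_, fun r hr => ?_⟩
  · obtain ⟨g, hg, he⟩ := (hmemE t).1 ht
    have h2 := hn g (Or.inl hg)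
    rw [he] at h2
    rw [h2, mem_filter]
    constructor
    · rintro ⟨_, t', ht', he'⟩
      have h3 : t' = t := hf.inj (he'.trans he)
      rw [← h3]; exact ht'
    · intro htJ
      exact ⟨hg, t, htJ, he.symm⟩
  · have hrall : r ∈ Rall := by
      rw [hRall, mem_biUnion]
      exact ⟨E, mem_powersetCard.2 ⟨hEF, hEm⟩, hr⟩
    have hrF : r ∈ Fam := by
      rw [hFam]
      exact mem_union_right _ hrall
    have hrS : (⟨r, hrF⟩ : {g // g ∈ Fam}) ∉ S := by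
      rw [hS, mem_filter, mem_image]
      rintro ⟨_, t, _, he⟩
      exact (hRallP r hrall).2.2 t he.symm
    have h2 := hn ⟨r, hrF⟩ (Or.inr hrS)
    intro hp
    have h3 := h2.1 hp
    exact hrS (hIS (mem_filter.1 h3).1)

/-- few primitive forms can be made prime to a prime at the same time -/
theorem adm_large {f : ℕ → ℤ × ℤ} (hf : Seq f) (T : Finset ℕ) {p : ℕ} (hp : p.Prime) (hT : T.card < p) :
    ∃ n : ℕ, ∀ t ∈ T, ¬ (p : ℤ) ∣ (f t).1 * n + (f t).2 := by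
  classical
  have hpI : Prime (p : ℤ) := Nat.prime_iff_prime_int.1 hp
  set T' := T.filter (fun t => ¬ (p : ℤ) ∣ (f t).1) with hT'
  obtain ⟨n, hn⟩ := avoid (ι := {t // t ∈ T'}) hp (by
    rw [Fintype.card_coe]
    exact (card_le_card (filter_subset _ _)).trans_lt hT) (fun t => (f t.1).1) (fun t => (f t.1).2)
    (fun t => (mem_filter.1 t.2).2)
  refine ⟨n, fun t ht hd => ?_⟩
  by_cases h : (p : ℤ) ∣ (f t).1
  · have h1 : (p : ℤ) ∣ (f t).2 := (dvd_add_right (Dvd.dvd.mul_right h _)).1 hd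
    exact hpI.not_isUnit ((hf.prim t).isUnit_of_dvd' h h1)
  · exact hn ⟨t, mem_filter.2 ⟨ht, h⟩⟩ hd

/-- one sequence and one size -/
theorem inf_one (m : ℕ) (hm : 1 ≤ m) : ∃ C : ℕ, ∀ f : ℕ → ℤ × ℤ, Seq f → ∀ Y : Set ℕ, Y.Infinite →
    ∃ Z ⊆ Y, Z.Infinite ∧ ∀ E : Finset ℕ, (E : Set ℕ) ⊆ Z → E.card = m → Pat C f E := by
  classical
  obtain ⟨C, K, hCK⟩ := many m hm
  refine ⟨C, fun f hf Y hY => ?_⟩
  -- constant residues modulo `K!`
  haveI : NeZero K.factorial := ⟨(Nat.factorial_pos K).ne'⟩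
  haveI := hY.to_subtype
  obtain ⟨c, hc⟩ := Finite.exists_infinite_fiber
    (fun t : Y => (((f t).1 : ZMod K.factorial), ((f t).2 : ZMod K.factorial)))
  set Y' : Set ℕ := {t | t ∈ Y ∧ (((f t).1 : ZMod K.factorial), ((f t).2 : ZMod K.factorial)) = c} with hY'
  have hY'inf : Y'.Infinite := by
    have h1 : ((fun t : Y => (((f t).1 : ZMod K.factorial), ((f t).2 : ZMod K.factorial))) ⁻¹' {c}).Infinite :=
      Set.infinite_coe_iff.1 hc
    refine (h1.image (Set.injOn_of_injective Subtype.val_injective)).mono ?_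
    rintro _ ⟨t, ht, rfl⟩
    exact ⟨t.2, ht⟩
  obtain ⟨Z, hZY, hZ, hP | hP⟩ := Pool.Agent.H672R3.HomPat.ram_inf m Y' hY'inf (Pat C f)
  · exact ⟨Z, hZY.trans (fun t ht => ht.1), hZ, hP⟩
  · exfalso
    obtain ⟨T, hT, hTc⟩ := hZ.exists_subset_card_eq K
    obtain ⟨E, hE, hEm, hPE⟩ := hCK f hf T hTc.ge (by
      intro p hp
      rcases Nat.lt_or_ge T.card p with h | h
      · exact adm_large hf T hp h
      · have hpK : (p : ℤ) ∣ (K.factorial : ℤ) :=
          Int.natCast_dvd_natCast.2 ((hp.dvd_factorial).2 (by omega))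
        rcases T.eq_empty_or_nonempty with h0 | ⟨t₀, ht₀⟩
        · exact ⟨0, fun t ht => by rw [h0] at ht; exact absurd ht (notMem_empty _)⟩
        · obtain ⟨n, hn⟩ := adm_large hf {t₀} hp (by rw [card_singleton]; exact hp.one_lt)
          refine ⟨n, fun t ht hd => hn t₀ (mem_singleton_self _) ?_⟩
          have h1 := (hZY (hT ht)).2
          have h2 := (hZY (hT ht₀)).2
          have h3 := h1.trans h2.symm
          rw [Prod.mk.injEq, ZMod.intCast_eq_intCast_iff_dvd_sub, ZMod.intCast_eq_intCast_iff_dvd_sub] at h3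
          have h4 : (f t₀).1 * (n : ℤ) + (f t₀).2 = ((f t).1 * (n : ℤ) + (f t).2) +
              ((f t₀).1 - (f t).1) * n + ((f t₀).2 - (f t).2) := by ring
          rw [h4]
          exact dvd_add (dvd_add hd (Dvd.dvd.mul_right (hpK.trans h3.1) _)) (hpK.trans h3.2))
    exact hP E (fun t ht => hT (hE ht)) hEm hPE

/-- diagonal choice -/
theorem diag {ι : Type} [Countable ι] {G : ι → Finset ℕ → Prop} {s : ι → ℕ}
    (h : ∀ i (Y : Set ℕ), Y.Infinite → ∃ Z ⊆ Y, Z.Infinite ∧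
      ∀ E : Finset ℕ, (E : Set ℕ) ⊆ Z → E.card = s i → G i E) (A : Set ℕ) (hA : A.Infinite) :
    ∃ T ⊆ A, T.Infinite ∧ ∀ i, ∃ t₀, ∀ E : Finset ℕ, (E : Set ℕ) ⊆ T → E.card = s i →
      (∀ t ∈ E, t₀ ≤ t) → G i E := by
  rcases isEmpty_or_nonempty ι with hι | hι
  · exact ⟨A, subset_rfl, hA, fun i => (hι.false i).elim⟩
  obtain ⟨g, hg⟩ := exists_surjective_nat ι
  have hstep : ∀ (j : ℕ) (Y : {Y : Set ℕ // Y.Infinite}), ∃ Z : {Y : Set ℕ // Y.Infinite},
      Z.1 ⊆ Y.1 ∧ ∀ E : Finset ℕ, (E : Set ℕ) ⊆ Z.1 → E.card = s (g j) → G (g j) E := by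
    intro j Y
    obtain ⟨Z, h1, h2, h3⟩ := h (g j) Y.1 Y.2
    exact ⟨⟨Z, h2⟩, h1, h3⟩
  choose ref hsub hgood using hstep
  let Y : ℕ → {Y : Set ℕ // Y.Infinite} := fun n => Nat.rec (ref 0 ⟨A, hA⟩)
    (fun j Z => ref (j + 1) Z) n
  have hYs : ∀ n, Y (n + 1) = ref (n + 1) (Y n) := fun n => rfl
  have hmono : ∀ a b, a ≤ b → (Y b).1 ⊆ (Y a).1 := by
    intro a b hab
    induction b, hab using Nat.le_induction with
    | base => exact subset_rfl
    | succ b _ ih => rw [hYs]; exact (hsub _ _).trans ih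
  have hYA : ∀ n, (Y n).1 ⊆ A := fun n => (hmono 0 n (Nat.zero_le _)).trans (hsub _ _)
  have hY : ∀ j, ∀ E : Finset ℕ, (E : Set ℕ) ⊆ (Y j).1 → E.card = s (g j) → G (g j) E := by
    intro j
    cases j with
    | zero => exact hgood 0 _
    | succ j => rw [hYs]; exact hgood _ _
  have hex : ∀ (j n : ℕ), ∃ x, x ∈ (Y j).1 ∧ n < x := fun j n => (Y j).2.exists_gt n
  choose c hc1 hc2 using hex
  let w : ℕ → ℕ := fun n => Nat.rec (c 0 0) (fun j x => c (j + 1) x) n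
  have hws : ∀ n, w (n + 1) = c (n + 1) (w n) := fun n => rfl
  have hwm : StrictMono w := strictMono_nat_of_lt_succ (fun n => by rw [hws]; exact hc2 _ _)
  have hwY : ∀ n, w n ∈ (Y n).1 := by
    intro n
    cases n with
    | zero => exact hc1 0 0
    | succ n => rw [hws]; exact hc1 (n + 1) (w n)
  refine ⟨Set.range w, ?_, Set.infinite_range_of_injective hwm.injective, fun i => ?_⟩
  · rintro _ ⟨n, rfl⟩
    exact hYA n (hwY n)
  · obtain ⟨j, rfl⟩ := hg i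
    refine ⟨w j, fun E hE hEs hEt => hY j E ?_ hEs⟩
    intro t ht
    obtain ⟨n, rfl⟩ := hE ht
    have h1 : j ≤ n := hwm.le_iff_le.1 (hEt _ ht)
    exact hmono j n h1 (hwY n)

/-- **Countably many sequences of forms at once.** -/
theorem inf_all : ∃ C : ℕ → ℕ, ∀ (ι : Type) [Countable ι] (f : ι → ℕ → ℤ × ℤ), (∀ i, Seq (f i)) →
    ∀ A : Set ℕ, A.Infinite → ∃ T ⊆ A, T.Infinite ∧ ∀ i m, 1 ≤ m → ∃ t₀, ∀ E : Finset ℕ,
      (E : Set ℕ) ⊆ T → E.card = m → (∀ t ∈ E, t₀ ≤ t) → Pat (C m) (f i) E := by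
  choose C hC using inf_one
  refine ⟨fun m => if h : 1 ≤ m then C m h else 0, fun ι _ f hf A hA => ?_⟩
  obtain ⟨T, hTA, hT, hTE⟩ := diag (ι := ι × {m : ℕ // 1 ≤ m})
    (G := fun i E => Pat (C i.2.1 i.2.2) (f i.1) E) (s := fun i => i.2.1)
    (fun i Y hY => hC i.2.1 i.2.2 (f i.1) (hf i.1) Y hY) A hA
  refine ⟨T, hTA, hT, fun i m hm => ?_⟩
  obtain ⟨t₀, ht₀⟩ := hTE (i, ⟨m, hm⟩)
  refine ⟨t₀, fun E h1 h2 h3 => ?_⟩
  simp only [hm, dif_pos]
  exact ht₀ E h1 h2 h3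

/-- an imprimitive form has no large prime values -/
theorem imprim {a b : ℤ} (ha : 0 < a) (hc : ¬ IsCoprime a b) {n : ℕ} (hn : b.natAbs + 2 ≤ n) :
    ¬ (a * (n : ℤ) + b).natAbs.Prime := by
  intro hp
  apply hc
  rw [Int.isCoprime_iff_gcd_eq_one]
  by_contra hne
  obtain ⟨l, hl, hld⟩ := Nat.exists_prime_and_dvd hne
  have h1 : (l : ℤ) ∣ (Int.gcd a b : ℤ) := Int.natCast_dvd_natCast.2 hld
  have h2 : (l : ℤ) ∣ a := h1.trans (Int.gcd_dvd_left _ _)
  have h3 : (l : ℤ) ∣ b := h1.trans (Int.gcd_dvd_right _ _)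
  have h4 : (l : ℤ) ∣ a * n + b := dvd_add (Dvd.dvd.mul_right h2 _) h3
  have h5 : l ∣ (a * (n : ℤ) + b).natAbs := Int.natCast_dvd.1 h4
  have h6 : l = (a * (n : ℤ) + b).natAbs := (Nat.prime_dvd_prime_iff_eq hl hp).1 h5
  have h7 : (l : ℤ) ≤ a := Int.le_of_dvd ha h2
  have h9 : (b.natAbs : ℤ) + 2 ≤ n := by exact_mod_cast hn
  have h10 : a + b.natAbs < a * n := by nlinarith
  have h11 : ((a * (n : ℤ) + b).natAbs : ℤ) ≤ a := by
    rw [← h6]; exact h7
  omega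

/-- the patterns in terms of the prime value `q` of the first form of `E` -/
theorem Pat.chain {C : ℕ} {f : ℕ → ℤ × ℤ} (hf : Seq f) (hdvd : ∀ s t, s ≤ t → (f s).1 ∣ (f t).1)
    {E : Finset ℕ} (hP : Pat C f E) {s : ℕ} (hs : s ∈ E) (hmin : ∀ t ∈ E, s ≤ t)
    (R : Finset (ℤ × ℤ)) (hR : ∀ r ∈ R, 1 ≤ r.1 ∧ ∀ t, (r.1 * (f s).1, r.1 * (f s).2 + r.2) ≠ f t)
    (J : Finset ℕ) (hJ : J ⊆ E) (hsJ : s ∈ J) :
    Often (C + 2) (fun q => q.Prime ∧
      (∀ t ∈ E, ((∃ p : ℕ, p.Prime ∧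
        ((f t).2 - (f t).1 / (f s).1 * (f s).2) + q * ((f t).1 / (f s).1) = p) ↔ t ∈ J)) ∧
      ∀ r ∈ R, ¬ (r.2 + q * r.1).natAbs.Prime) := by
  classical
  have hfs := hf.pos s
  set R' : Finset (ℤ × ℤ) := (R.image (fun r => (r.1 * (f s).1, r.1 * (f s).2 + r.2))).filter
    (fun g => IsCoprime g.1 g.2) with hR'
  have hP1 := hP R' (by
    intro g hg
    rw [hR', mem_filter, mem_image] at hg
    obtain ⟨⟨r, hr, rfl⟩, hgc⟩ := hg
    obtain ⟨h1, h2⟩ := hR r hr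
    exact ⟨by positivity, hgc, h2⟩) J hJ
  set n₀ : ℕ := ∑ t ∈ E, (f t).2.natAbs + ∑ r ∈ R, ((r.1 * (f s).2 + r.2).natAbs + 2) with hn₀
  refine Often.shift (f s).1 (f s).2 hfs n₀ hP1 ?_
  intro n hn htr
  have hposE : ∀ t ∈ E, 0 ≤ (f t).1 * n + (f t).2 := by
    intro t ht
    have h1 : (f t).2.natAbs ≤ ∑ t ∈ E, (f t).2.natAbs :=
      Finset.single_le_sum (f := fun t => (f t).2.natAbs) (fun _ _ => Nat.zero_le _) ht
    have h2 : ((f t).2.natAbs : ℤ) ≤ n := by exact_mod_cast (by omega : (f t).2.natAbs ≤ n)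
    have h3 := hf.pos t
    have h4 : (n : ℤ) ≤ (f t).1 * n := by nlinarith
    omega
  obtain ⟨q, hq⟩ := Int.eq_ofNat_of_zero_le (hposE s hs)
  have hval : ∀ t ∈ E, ((f t).2 - (f t).1 / (f s).1 * (f s).2) + (q : ℤ) * ((f t).1 / (f s).1) =
      (f t).1 * n + (f t).2 := by
    intro t ht
    obtain ⟨c, hc⟩ := hdvd s t (hmin t ht)
    have h1 : (f t).1 / (f s).1 = c := by rw [hc]; exact Int.mul_ediv_cancel_left _ hfs.ne'
    have h2 : (q : ℤ) = (f s).1 * n + (f s).2 := hq.symm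
    rw [h1, h2, hc]
    ring
  refine ⟨q, hq.symm, ?_, fun t ht => ?_, fun r hr => ?_⟩
  · have h1 := (htr.1 s hs).2 hsJ
    rw [hq] at h1
    simpa using h1
  · rw [← htr.1 t ht, hval t ht]
    obtain ⟨v, hv⟩ := Int.eq_ofNat_of_zero_le (hposE t ht)
    rw [hv]
    constructor
    · rintro ⟨p, hp, he⟩
      have h1 : v = p := by exact_mod_cast he
      simpa [h1] using hp
    · intro h
      exact ⟨v, by simpa using h, rfl⟩
  · obtain ⟨hr1, hr2⟩ := hR r hr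
    have h1 : r.2 + (q : ℤ) * r.1 = (r.1 * (f s).1) * n + (r.1 * (f s).2 + r.2) := by
      have h2 : (q : ℤ) = (f s).1 * n + (f s).2 := hq.symm
      rw [h2]
      ring
    rw [h1]
    by_cases hc : IsCoprime (r.1 * (f s).1) (r.1 * (f s).2 + r.2)
    · exact htr.2 (r.1 * (f s).1, r.1 * (f s).2 + r.2) (by
        rw [hR', mem_filter, mem_image]
        exact ⟨⟨r, hr, rfl⟩, hc⟩)
    · apply imprim (by positivity) hc
      have h9 : (r.1 * (f s).2 + r.2).natAbs + 2 ≤ ∑ r ∈ R, ((r.1 * (f s).2 + r.2).natAbs + 2) :=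
        Finset.single_le_sum (f := fun r : ℤ × ℤ => (r.1 * (f s).2 + r.2).natAbs + 2)
          (fun _ _ => Nat.zero_le _) hr
      omega

end Pool.Agent.K1H86.PP
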